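import Mathlib
import Pool.Agent.H59.L.S8.TH876.Sums

set_option autoImplicit false

/-!
# Points of `a + b + c = 0` over a number field: the three sides, prescribed primes
-/

namespace Pool.Agent.TH876.KR

open NumberField IsDedekindDomain Finset Pool.Agent.H691R3 Pool.Agent.TH876.Loc

variable {K : Type} [Field K] [NumberField K]

open Classical in
/-- the primes of the `i`-th side -/
noncomputable def side (i : Fin 3) (x : K) : Finset (Pr K) :=
  (sp x).filter fun v => 0 < df (Sum.inr v : Pl K) i x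

/-- the logarithm of the radical of a side -/
noncomputable def rr (i : Fin 3) (x : K) : ℝ := ∑ v ∈ side i x, Real.log (Nv v)

/-- the archimedean weight of a side -/
noncomputable def aw (i : Fin 3) (x : K) : ℝ := ∑ w : InfinitePlace K, df (Sum.inl w : Pl K) i x

/-- the scale of a point -/
def Sc (k : ℕ) (l : ℝ) (x : K) : Prop := l ≤ hgt x ∧ hgt x ≤ (1 + 1 / (4 * (k : ℝ))) * l

/-- the primes outside `S` contribute at most `(1 - 1/k) h(x)` -/
def Light (k : ℕ) (S : Finset (Pr K)) (x : K) : Prop := out S x ≤ (1 - 1 / (k : ℝ)) * hgt x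

/-- about the same exponents at the primes of `S` and at infinity -/
def Near (S : Finset (Pr K)) (η : ℝ) (x y : K) : Prop :=
  ∀ v ∈ Spl S, ∀ i, |df v i x - df v i y| ≤ η

open Classical in
/-- `p` is a prime of the side `B`, the other primes of the side `B` and those of the side `C` are
in `S`, as well as primes of the side `A` which together with the places at infinity have weight
at least `1/k` -/
structure InP (k : ℕ) (S : Finset (Pr K)) (A B C : Fin 3) (x : K) (p : Pr K) : Prop where
  pS : p ∉ S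
  pB : p ∈ side B x
  fB : side B x ⊆ insert p S
  fC : side C x ⊆ S
  wt : hgt x / k ≤ aw A x + ∑ v ∈ S, df (Sum.inr v : Pl K) A x

theorem log_Nv_pos' (v : Pr K) : 0 < Real.log (Nv v) := Real.log_pos (by linarith [two_le_Nv v])

theorem fv_pos (v : Pr K) {z : K} (hz : z ≠ 0) : 0 < fv v z := (fv v).pos hz

theorem df_inr (v : Pr K) (i : Fin 3) (x : K) :
    df (Sum.inr v : Pl K) i x = Real.log (M (Sum.inr v : Pl K) x) - Real.log (fv v (L i x)) := by
  unfold df mx lg
  show 1 * _ - 1 * _ = _
  rw [one_mul, one_mul]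
  rfl

/-- at a finite place at least two of the three absolute values are maximal -/
theorem two_max (v : Pr K) (x : K) {i j : Fin 3} (hij : i ≠ j)
    (hi : fv v (L i x) < M (Sum.inr v : Pl K) x) : fv v (L j x) = M (Sum.inr v : Pl K) x := by
  have hsum := L_sum x
  have hle : ∀ i, fv v (L i x) ≤ M (Sum.inr v : Pl K) x := fun i => av_L_le (Sum.inr v : Pl K) x i
  by_contra hne
  have hj : fv v (L j x) < M (Sum.inr v : Pl K) x := lt_of_le_of_ne (hle j) hne
  obtain ⟨m, hm⟩ := M_attained (Sum.inr v : Pl K) x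
  have hm' : M (Sum.inr v : Pl K) x = fv v (L m x) := hm
  have hmi : m ≠ i := by rintro rfl; rw [hm'] at hi; exact lt_irrefl _ hi
  have hmj : m ≠ j := by rintro rfl; rw [hm'] at hj; exact lt_irrefl _ hj
  have hL : L m x = -(L i x + L j x) := by
    have h3 : ∀ f : Fin 3 → K, f 0 + f 1 + f 2 = f m + f i + f j := by
      intro f
      fin_cases m <;> fin_cases i <;> fin_cases j <;> simp at hmi hmj hij ⊢ <;> ring
    have := h3 (fun i => L i x)
    linear_combination -this + hsum
  have h4 : fv v (L m x) ≤ max (fv v (L i x)) (fv v (L j x)) := by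
    rw [hL, (fv v).map_neg]
    exact fv_na v _ _
  rw [hm'] at hi hj
  exact absurd h4 (not_le.2 (max_lt hi hj))

theorem side_uniq {x : K} {v : Pr K} {i j : Fin 3} (hi : v ∈ side i x)
    (hj : v ∈ side j x) : i = j := by
  classical
  by_contra hij
  have h1 := (Finset.mem_filter.1 hi).2
  have h2 := (Finset.mem_filter.1 hj).2
  rw [df_inr] at h1 h2
  have h3 : fv v (L i x) < M (Sum.inr v : Pl K) x := by
    by_contra h
    have : M (Sum.inr v : Pl K) x = fv v (L i x) :=
      le_antisymm (not_lt.1 h) (av_L_le (Sum.inr v : Pl K) x i)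
    rw [this, sub_self] at h1
    exact lt_irrefl _ h1
  rw [two_max v x hij h3, sub_self] at h2
  exact lt_irrefl _ h2

theorem df_eq_zero {x : K} (hx : Pt x) {v : Pr K} {i : Fin 3} (h : v ∉ side i x) :
    df (Sum.inr v : Pl K) i x = 0 := by
  classical
  have h0 := df_nonneg (Sum.inr v : Pl K) i hx
  by_cases hv : v ∈ sp x
  · by_contra hne
    exact h (Finset.mem_filter.2 ⟨hv, lt_of_le_of_ne h0 (Ne.symm hne)⟩)
  · unfold df
    rw [mx_eq_zero hx hv, lg_eq_zero hx hv, sub_zero]

theorem side_sub (i : Fin 3) (x : K) : side i x ⊆ sp x := by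
  classical
  exact Finset.filter_subset _ _

theorem mem_side {x : K} (hx : Pt x) {v : Pr K} {i : Fin 3} :
    v ∈ side i x ↔ 0 < df (Sum.inr v : Pl K) i x := by
  classical
  constructor
  · exact fun h => (Finset.mem_filter.1 h).2
  · intro h
    by_contra h'
    rw [df_eq_zero hx h'] at h
    exact lt_irrefl _ h

theorem mem_sp_iff {x : K} (hx : Pt x) (v : Pr K) : v ∈ sp x ↔ ∃ i, v ∈ side i x := by
  constructor
  · intro hv
    by_contra hcon
    push Not at hcon
    have h0 : ∀ i, df (Sum.inr v : Pl K) i x = 0 := fun i => df_eq_zero hx (hcon i)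
    have h1 : ∀ i, fv v (L i x) = 1 := by
      have key : ∀ i, fv v (L i x) = M (Sum.inr v : Pl K) x := by
        intro i
        have h2 := h0 i
        rw [df_inr] at h2
        have hM : 0 < M (Sum.inr v : Pl K) x := lt_of_lt_of_le one_pos (one_le_M _ x)
        have h3 : Real.log (fv v (L i x)) = Real.log (M (Sum.inr v : Pl K) x) := by linarith
        exact Real.log_injOn_pos (Set.mem_Ioi.2 (fv_pos v (L_ne hx i))) (Set.mem_Ioi.2 hM) h3
      intro i
      rw [key i, ← key 1]
      show fv v 1 = 1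
      exact map_one _
    rw [mem_sp hx] at hv
    apply hv
    refine ⟨h1 0, ?_⟩
    have h2 := h1 2
    have e : L 2 x = -(x + 1) := by show -x - 1 = _; ring
    rw [e, (fv v).map_neg] at h2
    exact h2
  · rintro ⟨i, hi⟩
    exact side_sub i x hi

theorem gd_eq {x : K} (hx : Pt x) {v : Pr K} {i : Fin 3} (h : v ∈ side i x) :
    gd (Sum.inr v : Pl K) x = df (Sum.inr v : Pl K) i x := by
  unfold gd
  refine Finset.sum_eq_single i (fun j _ hj => ?_) (fun h => absurd (Finset.mem_univ i) h)
  refine df_eq_zero hx fun h' => hj ?_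
  exact side_uniq h' h

theorem side_sum {x : K} (hx : Pt x) (i : Fin 3) :
    ∑ v ∈ side i x, df (Sum.inr v : Pl K) i x + aw i x = hgt x := by
  have h1 := sum_df hx (Finset.Subset.refl (sp x)) i
  rw [sum_Spl] at h1
  have h2 : ∑ v ∈ side i x, df (Sum.inr v : Pl K) i x = ∑ v ∈ sp x, df (Sum.inr v : Pl K) i x :=
    Finset.sum_subset (side_sub i x) fun v _ hv => df_eq_zero hx hv
  rw [h2, add_comm]
  exact h1

theorem aw_nonneg {x : K} (hx : Pt x) (i : Fin 3) : 0 ≤ aw i x :=
  Finset.sum_nonneg fun w _ => df_nonneg _ i hx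

theorem rr_nonneg (i : Fin 3) (x : K) : 0 ≤ rr i x :=
  Finset.sum_nonneg fun v _ => (log_Nv_pos' v).le

theorem sp_union {x : K} (hx : Pt x) [DecidableEq (Pr K)] :
    sp x = (side 0 x ∪ side 1 x) ∪ side 2 x := by
  ext v
  rw [mem_sp_iff hx, Finset.mem_union, Finset.mem_union]
  constructor
  · rintro ⟨i, hi⟩
    fin_cases i
    · exact Or.inl (Or.inl hi)
    · exact Or.inl (Or.inr hi)
    · exact Or.inr hi
  · rintro ((h | h) | h)
    · exact ⟨0, h⟩
    · exact ⟨1, h⟩
    · exact ⟨2, h⟩

theorem side_disj {x : K} {i j : Fin 3} (hij : i ≠ j) :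
    Disjoint (side i x) (side j x) := by
  rw [Finset.disjoint_left]
  exact fun v hi hj => hij (side_uniq hi hj)

theorem rr_sum {x : K} (hx : Pt x) : rr 0 x + rr 1 x + rr 2 x = ∑ v ∈ sp x, Real.log (Nv v) := by
  classical
  rw [sp_union hx, Finset.sum_union, Finset.sum_union (side_disj (by decide))]
  · rfl
  · rw [Finset.disjoint_union_left]
    exact ⟨side_disj (by decide), side_disj (by decide)⟩

theorem log_nn (s : Finset (Pr K)) : Real.log (nn s) = ∑ v ∈ s, Real.log (Nv v) := by
  unfold nn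
  rw [Real.log_prod]
  intro v _
  exact (Nv_pos v).ne'

theorem rr_sum' {x : K} (hx : Pt x) : rr 0 x + rr 1 x + rr 2 x = Real.log (nn (sp x)) := by
  rw [rr_sum hx, log_nn]

/-- the finite defects are integral multiples of `log N(v)` -/
theorem df_int {x : K} (hx : Pt x) (v : Pr K) (i : Fin 3) :
    ∃ m : ℕ, df (Sum.inr v : Pl K) i x = m * Real.log (Nv v) := by
  obtain ⟨j, hj⟩ := M_attained (Sum.inr v : Pl K) x
  have hj' : M (Sum.inr v : Pl K) x = fv v (L j x) := hj
  obtain ⟨a, ha⟩ := log_fv v (L_ne hx j)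
  obtain ⟨b, hb⟩ := log_fv v (L_ne hx i)
  have h0 := df_nonneg (Sum.inr v : Pl K) i hx
  have h1 : df (Sum.inr v : Pl K) i x = ((a - b : ℤ) : ℝ) * Real.log (Nv v) := by
    rw [df_inr, hj', ha, hb]
    push_cast
    ring
  have h2 : (0 : ℤ) ≤ a - b := by
    by_contra h
    push Not at h
    have h3 : ((a - b : ℤ) : ℝ) < 0 := by exact_mod_cast h
    rw [h1] at h0
    nlinarith [log_Nv_pos' v]
  refine ⟨(a - b).toNat, ?_⟩
  rw [h1]
  congr 1
  exact_mod_cast (Int.toNat_of_nonneg h2).symm

theorem lg_mul (v : Pl K) {a b : K} (ha : a ≠ 0) (hb : b ≠ 0) : lg v (a * b) = lg v a + lg v b := by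
  unfold lg
  rw [map_mul, Real.log_mul ((av v).ne_zero ha) ((av v).ne_zero hb)]
  ring

theorem lg_neg (v : Pl K) (a : K) : lg v (-a) = lg v a := by
  unfold lg
  rw [(av v).map_neg]

theorem lg_div (v : Pl K) {a b : K} (ha : a ≠ 0) (hb : b ≠ 0) : lg v (a / b) = lg v a - lg v b := by
  unfold lg
  rw [map_div₀, Real.log_div ((av v).ne_zero ha) ((av v).ne_zero hb)]
  ring

/-- the ratio `- L_B / L_C` -/
noncomputable def qt (B C : Fin 3) (x : K) : K := -(L B x / L C x)

theorem qt_ne {x : K} (hx : Pt x) (B C : Fin 3) : qt B C x ≠ 0 :=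
  neg_ne_zero.2 (div_ne_zero (L_ne hx B) (L_ne hx C))

theorem lg_qt {x : K} (hx : Pt x) (B C : Fin 3) (v : Pl K) :
    lg v (qt B C x) = df v C x - df v B x := by
  unfold qt
  rw [lg_neg, lg_div v (L_ne hx B) (L_ne hx C)]
  unfold df
  ring

theorem qt_sub {x : K} (hx : Pt x) {A B C : Fin 3} (hAB : A ≠ B) (hBC : B ≠ C) (hAC : A ≠ C) :
    qt B C x - 1 = L A x / L C x := by
  have h3 : ∀ f : Fin 3 → K, f 0 + f 1 + f 2 = f A + f B + f C := by
    intro f
    fin_cases A <;> fin_cases B <;> fin_cases C <;> simp at hAB hBC hAC ⊢ <;> ring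
  have h4 := h3 (fun i => L i x)
  have h5 := L_sum x
  have hC := L_ne hx C
  unfold qt
  field_simp
  linear_combination h4 - h5

theorem lg_qt_sub {x : K} (hx : Pt x) {A B C : Fin 3} (hAB : A ≠ B) (hBC : B ≠ C) (hAC : A ≠ C)
    (v : Pl K) : lg v (qt B C x - 1) = df v C x - df v A x := by
  rw [qt_sub hx hAB hBC hAC, lg_div v (L_ne hx A) (L_ne hx C)]
  unfold df
  ring

/-- at an infinite place all but two small defects are small -/
theorem df_arch {x : K} (hx : Pt x) {i j : Fin 3} (hij : i ≠ j) (w : InfinitePlace K) :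
    min (df (Sum.inl w : Pl K) i x) (df (Sum.inl w : Pl K) j x) ≤ w.mult * Real.log 2 := by
  by_contra hcon
  rw [not_le, lt_min_iff] at hcon
  obtain ⟨h1, h2⟩ := hcon
  have hm : (0 : ℝ) < w.mult := by exact_mod_cast InfinitePlace.mult_pos
  have hM : 0 < M (Sum.inl w : Pl K) x := lt_of_lt_of_le one_pos (one_le_M _ x)
  have key : ∀ i, (w.mult : ℝ) * Real.log 2 < df (Sum.inl w : Pl K) i x →
      2 * av (Sum.inl w : Pl K) (L i x) < M (Sum.inl w : Pl K) x := by
    intro i h
    have hpos : 0 < av (Sum.inl w : Pl K) (L i x) := (av _).pos (L_ne hx i)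
    have h3 : df (Sum.inl w : Pl K) i x = (w.mult : ℝ) * (Real.log (M (Sum.inl w : Pl K) x) -
        Real.log (av (Sum.inl w : Pl K) (L i x))) := by
      unfold df mx lg Pool.Agent.TH876.Loc.mt
      simp only [Sum.elim_inl]
      ring
    rw [h3, mul_lt_mul_iff_right₀ hm] at h
    rw [← Real.log_lt_log_iff (by positivity) hM, Real.log_mul (by norm_num) hpos.ne']
    linarith
  have k1 := key i h1
  have k2 := key j h2
  obtain ⟨m, hmm⟩ := M_attained (Sum.inl w : Pl K) x
  have hpi : 0 < av (Sum.inl w : Pl K) (L i x) := (av _).pos (L_ne hx i)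
  have hpj : 0 < av (Sum.inl w : Pl K) (L j x) := (av _).pos (L_ne hx j)
  have hmi : m ≠ i := by rintro rfl; linarith
  have hmj : m ≠ j := by rintro rfl; linarith
  have hL : L m x = -(L i x + L j x) := by
    have h3 : ∀ f : Fin 3 → K, f 0 + f 1 + f 2 = f m + f i + f j := by
      intro f
      fin_cases m <;> fin_cases i <;> fin_cases j <;> simp at hmi hmj hij ⊢ <;> ring
    have := h3 (fun i => L i x)
    have hsum := L_sum x
    linear_combination -this + hsum
  have h4 : av (Sum.inl w : Pl K) (L m x) ≤ av (Sum.inl w : Pl K) (L i x) +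
      av (Sum.inl w : Pl K) (L j x) := by
    rw [hL, (av _).map_neg]
    exact (av _).add_le _ _
  linarith

end Pool.Agent.TH876.KR
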