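import Mathlib
import Pool.Agent.H59.L.S8.TH876.KR.Def

set_option autoImplicit false

/-!
# Cells (job KR-3)
-/

namespace Pool.Agent.TH876.KR

open NumberField IsDedekindDomain Finset Pool.Agent.H691R3 Pool.Agent.TH876.Loc

variable {K : Type} [Field K] [NumberField K]

/-- numbering of the values of a function on a finite set -/
theorem number {α β : Type*} [DecidableEq β] (F : Finset α) (c : α → β) :
    ∃ f : α → ℕ, (∀ x ∈ F, f x < (F.image c).card) ∧
      ∀ x ∈ F, ∀ y ∈ F, f x = f y → c x = c y := by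
  classical
  refine ⟨fun x => if h : c x ∈ F.image c then ((F.image c).equivFin ⟨c x, h⟩ : ℕ) else 0,
    ?_, ?_⟩
  · intro x hx
    have h : c x ∈ F.image c := Finset.mem_image_of_mem c hx
    simp only [h, dif_pos]
    exact ((F.image c).equivFin ⟨c x, h⟩).2
  · intro x hx y hy hxy
    have h : c x ∈ F.image c := Finset.mem_image_of_mem c hx
    have h' : c y ∈ F.image c := Finset.mem_image_of_mem c hy
    simp only [h, h', dif_pos] at hxy
    have h2 := (F.image c).equivFin.injective (Fin.ext hxy)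
    exact congrArg Subtype.val h2

/-- equal floors -/
theorem floor_close {a b s : ℝ} (hs : 0 < s) (ha : 0 ≤ a) (hb : 0 ≤ b)
    (h : ⌊a * s⌋₊ = ⌊b * s⌋₊) : |a - b| ≤ 1 / s := by
  have a1 := Nat.floor_le (mul_nonneg ha hs.le)
  have a2 := Nat.lt_floor_add_one (a * s)
  have b1 := Nat.floor_le (mul_nonneg hb hs.le)
  have b2 := Nat.lt_floor_add_one (b * s)
  rw [h] at a1 a2
  have h1 : |a - b| * s = |(a - b) * s| := by rw [abs_mul, abs_of_pos hs]
  rw [le_div_iff₀ hs, h1, abs_le]
  constructor <;> linarith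

theorem df_le_hgt_spl {x : K} (hx : Pt x) {v : Pl K} (hv : v ∈ Spl (sp x)) (i : Fin 3) :
    df v i x ≤ hgt x := by
  rw [← sum_df hx (Finset.Subset.refl _) i]
  exact Finset.single_le_sum (f := fun v => df v i x) (fun v _ => df_nonneg v i hx) hv

theorem cells {k : ℕ} (hk : 1 ≤ k) (S : Finset (Pr K)) {l : ℝ} (hl : 0 < l) (F : Finset K)
    (hF : ∀ x ∈ F, Pt x ∧ hgt x ≤ 2 * l) :
    ∃ f : K → ℕ, (∀ x ∈ F, f x < 2 ^ (99 * k * (Spl S).card)) ∧
      ∀ x ∈ F, ∀ y ∈ F, f x = f y → Near S (l / (16 * k * (Spl S).card)) x y := by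
  classical
  obtain ⟨w0⟩ : Nonempty (InfinitePlace K) := inferInstance
  have ht : 1 ≤ (Spl S).card := Finset.card_pos.2 ⟨Sum.inl w0, inl_mem_Spl S w0⟩
  set t := (Spl S).card with htd
  have hk' : (1:ℝ) ≤ k := by exact_mod_cast hk
  have ht' : (1:ℝ) ≤ t := by exact_mod_cast ht
  obtain ⟨s, hs⟩ : ∃ s : ℝ, s = 16 * k * t / l := ⟨_, rfl⟩
  have hs0 : 0 < s := by rw [hs]; positivity
  let c : K → ((Spl S) × Fin 3 → ℕ) := fun x p => ⌊df p.1.1 p.2 x * s⌋₊
  obtain ⟨f, hf1, hf2⟩ := number F c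
  refine ⟨f, ?_, ?_⟩
  · intro x hx
    refine (hf1 x hx).trans_le ?_
    have hsum : ∀ g ∈ F.image c, ∑ p, g p ≤ 96 * k * t := by
      intro g hg
      obtain ⟨y, hy, rfl⟩ := Finset.mem_image.1 hg
      obtain ⟨hPt, hh⟩ := hF y hy
      have h1 : ((∑ p, c y p : ℕ) : ℝ) ≤ 96 * k * t := by
        rw [Nat.cast_sum]
        calc ∑ p : (Spl S) × Fin 3, (c y p : ℝ)
            ≤ ∑ p : (Spl S) × Fin 3, df p.1.1 p.2 y * s := by
              refine Finset.sum_le_sum fun p _ => ?_
              exact Nat.floor_le (mul_nonneg (df_nonneg _ _ hPt) hs0.le)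
          _ = (∑ v : Spl S, gd v.1 y) * s := by
              rw [Fintype.sum_prod_type, Finset.sum_mul]
              refine Finset.sum_congr rfl fun v _ => ?_
              unfold gd
              rw [Finset.sum_mul]
          _ ≤ (3 * hgt y) * s := by
              refine mul_le_mul_of_nonneg_right ?_ hs0.le
              rw [← sum_gd hPt (Finset.subset_union_left : sp y ⊆ sp y ∪ S)]
              rw [Finset.sum_coe_sort (Spl S) (fun v => gd v y)]
              exact Finset.sum_le_sum_of_subset_of_nonneg (Spl_mono Finset.subset_union_right)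
                fun v _ _ => gd_nonneg v hPt
          _ ≤ (3 * (2 * l)) * s := mul_le_mul_of_nonneg_right (by linarith) hs0.le
          _ = 96 * k * t := by rw [hs]; field_simp; ring
      exact_mod_cast h1
    have h2 := count_fun (96 * k * t) (F.image c) hsum
    have h3 : Fintype.card ((Spl S) × Fin 3) = t * 3 := by
      rw [Fintype.card_prod, Fintype.card_coe, Fintype.card_fin]
    rw [h3] at h2
    have h4 : ((F.image c).card : ℝ) ≤ ((2 ^ (99 * k * t) : ℕ) : ℝ) := by
      refine h2.trans ?_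
      push_cast
      apply pow_le_pow_right₀ (by norm_num)
      nlinarith [Nat.mul_le_mul_right t hk]
    exact_mod_cast h4
  · intro x hx y hy hxy v hv i
    have h1 := hf2 x hx y hy hxy
    have h2 := congrFun h1 (⟨v, hv⟩, i)
    have h3 := floor_close hs0 (df_nonneg v i (hF x hx).1) (df_nonneg v i (hF y hy).1) h2
    refine h3.trans (le_of_eq ?_)
    rw [hs, one_div_div]

theorem cells_inf {N : ℕ} (hN : 1 ≤ N) {l : ℝ} (hl : 0 < l) (F : Finset K)
    (hF : ∀ x ∈ F, Pt x ∧ hgt x ≤ 2 * l) :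
    ∃ f : K → ℕ, (∀ x ∈ F, f x < (3 * N) ^ (3 * Fintype.card (InfinitePlace K))) ∧
      ∀ x ∈ F, ∀ y ∈ F, f x = f y → ∀ (w : InfinitePlace K) (i : Fin 3),
        |df (Sum.inl w : Pl K) i x - df (Sum.inl w : Pl K) i y| ≤ l / N := by
  classical
  have hN' : (1:ℝ) ≤ N := by exact_mod_cast hN
  obtain ⟨s, hs⟩ : ∃ s : ℝ, s = N / l := ⟨_, rfl⟩
  have hs0 : 0 < s := by rw [hs]; positivity
  let c : K → (InfinitePlace K × Fin 3 → ℕ) := fun x p => ⌊df (Sum.inl p.1 : Pl K) p.2 x * s⌋₊
  obtain ⟨f, hf1, hf2⟩ := number F c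
  refine ⟨f, ?_, ?_⟩
  · intro x hx
    refine (hf1 x hx).trans_le ?_
    have hsub : F.image c ⊆ Fintype.piFinset fun _ : InfinitePlace K × Fin 3 =>
        Finset.range (2 * N + 1) := by
      intro g hg
      obtain ⟨y, hy, rfl⟩ := Finset.mem_image.1 hg
      obtain ⟨hPt, hh⟩ := hF y hy
      rw [Fintype.mem_piFinset]
      intro p
      rw [Finset.mem_range, Nat.lt_succ_iff]
      show ⌊df (Sum.inl p.1 : Pl K) p.2 y * s⌋₊ ≤ 2 * N
      apply Nat.floor_le_of_le
      have h1 := df_le_hgt_spl hPt (inl_mem_Spl (sp y) p.1) p.2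
      calc df (Sum.inl p.1 : Pl K) p.2 y * s ≤ (2 * l) * s :=
            mul_le_mul_of_nonneg_right (h1.trans hh) hs0.le
        _ = ((2 * N : ℕ) : ℝ) := by rw [hs]; push_cast; field_simp
    have h2 := Finset.card_le_card hsub
    rw [Fintype.card_piFinset] at h2
    simp only [Finset.card_range, Finset.prod_const, Finset.card_univ, Fintype.card_prod,
      Fintype.card_fin] at h2
    refine h2.trans ?_
    rw [mul_comm (Fintype.card (InfinitePlace K)) 3]
    exact Nat.pow_le_pow_left (by omega) _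
  · intro x hx y hy hxy w i
    have h1 := hf2 x hx y hy hxy
    have h2 := congrFun h1 (w, i)
    have h3 := floor_close hs0 (df_nonneg _ i (hF x hx).1) (df_nonneg _ i (hF y hy).1) h2
    refine h3.trans (le_of_eq ?_)
    rw [hs, one_div_div]

end Pool.Agent.TH876.KR
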