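import Pool.Agent.H59.L.S8.TH876.KR.PigK
import Pool.Agent.H59.L.S8.TH876.KR.Cell2

set_option autoImplicit false

/-!
# Few points with a distinguished prime in a cell
-/

namespace Pool.Agent.TH876.KR

open NumberField IsDedekindDomain Finset Pool.Agent.H691R3 Pool.Agent.TH876.Loc

variable {K : Type} [Field K] [NumberField K]

theorem Sc.le_two {k : ℕ} (hk : 1 ≤ k) {l : ℝ} (hl0 : 0 ≤ l) {x : K} (sx : Sc k l x) :
    hgt x ≤ 2 * l := by
  have hk0 : (0 : ℝ) < k := by exact_mod_cast hk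
  refine sx.2.trans (mul_le_mul_of_nonneg_right ?_ hl0)
  have : 1 / (4 * (k : ℝ)) ≤ 1 := by
    rw [div_le_one (by positivity)]
    have : (1 : ℝ) ≤ k := by exact_mod_cast hk
    linarith
  linarith

theorem df_le_hgt {x : K} (hx : Pt x) (v : Pl K) (i : Fin 3) : df v i x ≤ hgt x := by
  classical
  rcases v with w | v
  · have h1 := sum_df hx (Finset.Subset.refl (sp x)) i
    rw [← h1]
    exact Finset.single_le_sum (f := fun v => df v i x) (fun v _ => df_nonneg v i hx)
      (inl_mem_Spl _ w)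
  · have h1 := sum_df hx (Finset.subset_insert v (sp x)) i
    rw [← h1]
    refine Finset.single_le_sum (f := fun v => df v i x) (fun v _ => df_nonneg v i hx) ?_
    rw [inr_mem_Spl]
    exact Finset.mem_insert_self _ _

theorem exp_lg_fin (v : Pr K) {z : K} (hz : z ≠ 0) : fv v z = Real.exp (lg (Sum.inr v : Pl K) z) := by
  show fv v z = Real.exp (1 * Real.log (fv v z))
  rw [one_mul, Real.exp_log (fv_pos v hz)]

theorem log_inf (w : InfinitePlace K) (z : K) :
    Real.log (w z) = lg (Sum.inl w : Pl K) z / w.mult := by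
  have hm : (0 : ℝ) < w.mult := by exact_mod_cast InfinitePlace.mult_pos
  show _ = ((w.mult : ℝ) * Real.log (w z)) / w.mult
  field_simp

open Classical in
/-- the data of a cell lead to a contradiction -/
theorem cell_contra {C : ℕ}
    (hpig : ∀ (S : Finset (Pr K)) (n e E : ℕ) (Y τ : ℝ)
    (y : Fin n → K) (p : Fin n → Pr K) (T : Finset (Pr K)) (W : Finset (InfinitePlace K))
    (δ : Pr K → ℝ) (δ' : InfinitePlace K → ℝ),
    1 ≤ n → 1 ≤ e → 1 ≤ Y → 0 ≤ τ → (∀ i, y i ≠ 0) → Function.Injective p → (∀ i, p i ∉ S) →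
    (∀ i, Nv (p i) ≤ Y) →
    (∀ i v, v ∉ S → v ≠ p i → fv v (y i) = 1) → (∀ i, fv (p i) (y i) = (Nv (p i))⁻¹ ^ e) →
    (∀ i, ∀ v ∈ S, ∃ a : ℤ, |a| ≤ E ∧ fv v (y i) = (Nv v)⁻¹ ^ a) →
    (∀ i j, ∀ w : InfinitePlace K, |Real.log (w (y i)) - Real.log (w (y j))| ≤ τ) →
    T ⊆ S → (∀ v ∈ T, 0 < δ v ∧ δ v < 1) → (∀ i, ∀ v ∈ T, fv v (y i - 1) ≤ δ v) →
    (∀ w ∈ W, 0 < δ' w ∧ C * n * δ' w ≤ 1) → (∀ i, ∀ w ∈ W, w (y i - 1) ≤ δ' w) →
    ((n : ℝ) + 1) * (2 * n * E + 1) ^ S.card * (9 * e) ^ C * nn S ^ C < 2 ^ n →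
    ∑ v ∈ T, -Real.log (δ v) + ∑ w ∈ W, (w.mult : ℝ) * -Real.log (δ' w) ≤
      C * (Real.log e + n * Real.log Y + n * τ / e + n))
    {k n N E : ℕ} (hk : 1 ≤ k) (hn : 1 ≤ n) (hN : 1 ≤ N) {S : Finset (Pr K)}
    {A B D : Fin 3} (hAB : A ≠ B) (hBD : B ≠ D) (hAD : A ≠ D) {e : ℕ} (he : 1 ≤ e) {X l : ℝ}
    (hX : 1 ≤ X) (hl : 8 * k * (dK K * Real.log 2) < l) (hE : 3 * l ≤ E)
    (hr : 2 < l / (4 * k * Fintype.card (InfinitePlace K)))
    (hW : C * n * (2 * Real.exp (-(l / (8 * k * Fintype.card (InfinitePlace K))))) ≤ 1)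
    (hcount : ((n : ℝ) + 1) * (2 * n * E + 1) ^ S.card * (9 * e) ^ C * nn S ^ C < 2 ^ n)
    (hfin : C * (Real.log e + n * Real.log X + n * (2 * (l / N)) / e + n) < l / (2 * k))
    (x : Fin n → K) (hx : ∀ i, Pt (x i)) (sx : ∀ i, Sc k l (x i)) (hinj : Function.Injective x)
    (p : Fin n → Pr K) (hP : ∀ i, InP k S A B D (x i) (p i)) (hpX : ∀ i, Nv (p i) ≤ X)
    (hpe : ∀ i, df (Sum.inr (p i) : Pl K) B (x i) = e * Real.log (Nv (p i)))
    (hnear : ∀ i j, Near S (l / (16 * k * (Spl S).card)) (x i) (x j))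
    (hinf : ∀ i j, ∀ (w : InfinitePlace K) (m : Fin 3),
      |df (Sum.inl w : Pl K) m (x i) - df (Sum.inl w : Pl K) m (x j)| ≤ l / N) : False := by
  have hk0 : (0 : ℝ) < k := by exact_mod_cast hk
  have hN0 : (0 : ℝ) < N := by exact_mod_cast hN
  have hl0 : 0 < l := lt_of_le_of_lt (mul_nonneg (by positivity) dK_nn) hl
  have hl4 : 4 * k * (dK K * Real.log 2) < l := by
    have : 0 ≤ 4 * k * (dK K * Real.log 2) := mul_nonneg (by positivity) dK_nn
    linarith
  obtain ⟨r, hrd⟩ : ∃ r, r = Fintype.card (InfinitePlace K) := ⟨_, rfl⟩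
  rw [← hrd] at hr hW
  have hr0 : (0 : ℝ) < r := by
    rw [hrd]
    exact_mod_cast (Fintype.card_pos : 0 < Fintype.card (InfinitePlace K))
  obtain ⟨t, ht⟩ : ∃ t, t = (Spl S).card := ⟨_, rfl⟩
  rw [← ht] at hnear
  have ht0 : (0 : ℝ) < t := by rw [ht]; exact_mod_cast card_Spl_pos S
  have htr : (t : ℝ) = r + S.card := by
    rw [ht, card_Spl, hrd]
    push_cast
    rfl
  obtain ⟨η, hη⟩ : ∃ η, η = l / (16 * k * t) := ⟨_, rfl⟩
  rw [← hη] at hnear
  have hη0 : 0 ≤ η := by rw [hη]; positivity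
  have htη : t * η = l / (16 * k) := by rw [hη]; field_simp
  have hne : (Finset.univ : Finset (Fin n)).Nonempty := ⟨⟨0, hn⟩, Finset.mem_univ _⟩
  set i0 : Fin n := ⟨0, hn⟩ with hi0
  have h2l : ∀ i, hgt (x i) ≤ 2 * l := fun i => (sx i).le_two hk hl0.le
  -- the primes are different
  have hpinj : Function.Injective p := by
    intro i j hij
    apply hinj
    refine InP.inj hk hAB hBD hAD hl4 (hx i) (hx j) (sx i) (sx j) (hP i) ?_ (by
      rw [← ht, ← hη]; exact hnear i j)
    rw [hpe i, hij, hpe j]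
  -- minimal defects
  set μ : Pl K → ℝ := fun v => Finset.univ.inf' hne (fun i => df v A (x i)) with hμ
  have hμle : ∀ v i, μ v ≤ df v A (x i) := fun v i => Finset.inf'_le _ (Finset.mem_univ i)
  have hμex : ∀ v, ∃ i, μ v = df v A (x i) := by
    intro v
    obtain ⟨i, _, hi⟩ := Finset.exists_mem_eq_inf' hne (fun i => df v A (x i))
    exact ⟨i, hi⟩
  set T : Finset (Pr K) := S.filter fun v => 0 < μ (Sum.inr v) with hT
  set W : Finset (InfinitePlace K) := Finset.univ.filter fun w => l / (4 * k * r) ≤ μ (Sum.inl w)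
    with hWd
  have hmul2 : ∀ w : InfinitePlace K, (w.mult : ℝ) ≤ 2 := by
    intro w
    unfold InfinitePlace.mult
    split_ifs <;> norm_num
  have hmulp : ∀ w : InfinitePlace K, (0 : ℝ) < w.mult := fun w => by
    exact_mod_cast InfinitePlace.mult_pos
  set y : Fin n → K := fun i => qt B D (x i) with hy
  have hyne : ∀ i, y i ≠ 0 := fun i => qt_ne (hx i) B D
  have hlgy : ∀ i v, lg v (y i) = df v D (x i) - df v B (x i) := fun i v => lg_qt (hx i) B D v
  have hlgy1 : ∀ i v, lg v (y i - 1) = df v D (x i) - df v A (x i) := fun i v =>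
    lg_qt_sub (hx i) hAB hBD hAD v
  have hy1ne : ∀ i, y i - 1 ≠ 0 := by
    intro i
    rw [hy]
    simp only
    rw [qt_sub (hx i) hAB hBD hAD]
    exact div_ne_zero (L_ne (hx i) A) (L_ne (hx i) D)
  have main := hpig S n e E X (2 * (l / N)) y p T W (fun v => Real.exp (-μ (Sum.inr v)))
    (fun w => 2 * Real.exp (-(μ (Sum.inl w) / w.mult))) hn he hX (by positivity) hyne hpinj
    (fun i => (hP i).pS) hpX
    (by
      intro i v hvS hvp
      rw [exp_lg_fin v (hyne i), hlgy, df_eq_zero (hx i) (fun h => hvS ((hP i).fC h)),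
        df_eq_zero (hx i) (fun h => ?_), sub_zero, Real.exp_zero]
      rcases Finset.mem_insert.1 ((hP i).fB h) with h1 | h1
      · exact hvp h1
      · exact hvS h1)
    (by
      intro i
      rw [exp_lg_fin _ (hyne i), hlgy, hpe i, df_eq_zero (hx i) (fun h => hBD (side_uniq (hP i).pB h)),
        zero_sub, ← Real.exp_log (pow_pos (inv_pos.2 (Nv_pos (p i))) e), Real.log_pow, Real.log_inv]
      congr 1
      ring)
    (by
      intro i v _
      obtain ⟨a, ha⟩ := df_int (hx i) v D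
      obtain ⟨b, hb⟩ := df_int (hx i) v B
      have hlog := log_Nv_pos' v
      have hlog2 : Real.log 2 ≤ Real.log (Nv v) := Real.log_le_log (by norm_num) (two_le_Nv v)
      have l2 := Real.log_two_gt_d9
      refine ⟨(b : ℤ) - a, ?_, ?_⟩
      · have ha2 := df_le_hgt (hx i) (Sum.inr v : Pl K) D
        have hb2 := df_le_hgt (hx i) (Sum.inr v : Pl K) B
        rw [ha] at ha2
        rw [hb] at hb2
        have h3 := h2l i
        have ha0 : (0 : ℝ) ≤ a := Nat.cast_nonneg _
        have hb0 : (0 : ℝ) ≤ b := Nat.cast_nonneg _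
        have h4 : (a : ℝ) ≤ E := by nlinarith
        have h5 : (b : ℝ) ≤ E := by nlinarith
        have h4' : a ≤ E := by exact_mod_cast h4
        have h5' : b ≤ E := by exact_mod_cast h5
        rw [abs_le]
        omega
      · rw [exp_lg_fin v (hyne i), hlgy, ha, hb]
        have h3 : (Nv v)⁻¹ ^ ((b : ℤ) - a) = Real.exp (Real.log ((Nv v)⁻¹ ^ ((b : ℤ) - a))) :=
          (Real.exp_log (zpow_pos (inv_pos.2 (Nv_pos v)) _)).symm
        rw [h3, Real.log_zpow, Real.log_inv]
        congr 1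
        push_cast
        ring)
    (by
      intro i j w
      rw [log_inf, log_inf, hlgy, hlgy, ← sub_div, abs_div, abs_of_pos (hmulp w)]
      have h1 := hinf i j w D
      have h2 := hinf i j w B
      have h3 : |df (Sum.inl w : Pl K) D (x i) - df (Sum.inl w : Pl K) B (x i) -
          (df (Sum.inl w : Pl K) D (x j) - df (Sum.inl w : Pl K) B (x j))| ≤ 2 * (l / N) := by
        rw [abs_le] at *
        constructor <;> linarith
      refine (div_le_self (abs_nonneg _) ?_).trans h3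
      exact_mod_cast (InfinitePlace.mult_pos : 0 < w.mult))
    (Finset.filter_subset _ _)
    (by
      intro v hv
      obtain ⟨_, hv2⟩ := Finset.mem_filter.1 hv
      exact ⟨Real.exp_pos _, by rw [Real.exp_lt_one_iff]; linarith⟩)
    (by
      intro i v hv
      obtain ⟨_, hv2⟩ := Finset.mem_filter.1 hv
      have h1 := hμle (Sum.inr v) i
      have hvA : v ∈ side A (x i) := (mem_side (hx i)).2 (by linarith)
      rw [exp_lg_fin v (hy1ne i), hlgy1, df_eq_zero (hx i) (fun h => hAD (side_uniq hvA h))]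
      exact Real.exp_le_exp.2 (by linarith))
    (by
      intro w hw
      obtain ⟨_, hw2⟩ := Finset.mem_filter.1 hw
      refine ⟨by positivity, le_trans ?_ hW⟩
      refine mul_le_mul_of_nonneg_left (mul_le_mul_of_nonneg_left ?_ (by norm_num)) (by positivity)
      refine Real.exp_le_exp.2 (neg_le_neg ?_)
      rw [le_div_iff₀ (hmulp w)]
      have e1 : l / (8 * k * r) * 2 = l / (4 * k * r) := by field_simp; ring
      have h3 : l / (8 * k * r) * w.mult ≤ l / (8 * k * r) * 2 :=
        mul_le_mul_of_nonneg_left (hmul2 w) (by positivity)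
      linarith)
    (by
      intro i w hw
      obtain ⟨_, hw2⟩ := Finset.mem_filter.1 hw
      have h1 := hμle (Sum.inl w) i
      have h2 := df_arch (hx i) hAD w
      have l2 := Real.log_two_lt_d9
      have l2' := Real.log_two_gt_d9
      have h3 : (w.mult : ℝ) * Real.log 2 < df (Sum.inl w : Pl K) A (x i) := by
        have := hmul2 w
        nlinarith
      have h4 : df (Sum.inl w : Pl K) D (x i) ≤ w.mult * Real.log 2 := by
        rcases min_le_iff.1 h2 with h5 | h5
        · linarith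
        · exact h5
      have hpos : 0 < w (y i - 1) := w.pos_iff.2 (hy1ne i)
      rw [← Real.log_le_log_iff hpos (by positivity), Real.log_mul (by norm_num)
        (Real.exp_pos _).ne', Real.log_exp, log_inf, hlgy1, div_le_iff₀ (hmulp w)]
      have e2 : (Real.log 2 + -(μ (Sum.inl w) / w.mult)) * w.mult =
          w.mult * Real.log 2 - μ (Sum.inl w) := by
        have := (hmulp w).ne'
        field_simp
        ring
      rw [e2]
      linarith)
    hcount
  -- the lower bound
  have hS1 : ∑ v ∈ S, df (Sum.inr v : Pl K) A (x i0) ≤ ∑ v ∈ T, μ (Sum.inr v) + S.card * η := by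
    have h1 : ∀ v ∈ S, df (Sum.inr v : Pl K) A (x i0) ≤ (if 0 < μ (Sum.inr v) then μ (Sum.inr v)
        else 0) + η := by
      intro v hv
      obtain ⟨i, hi⟩ := hμex (Sum.inr v)
      have h2 := (le_abs_self _).trans (hnear i0 i (Sum.inr v) ((inr_mem_Spl S v).2 hv) A)
      split_ifs with h3
      · linarith
      · have h4 : 0 ≤ df (Sum.inr v : Pl K) A (x i) := df_nonneg _ _ (hx i)
        linarith
    have h2 := Finset.sum_le_sum h1
    rw [Finset.sum_add_distrib, Finset.sum_const, nsmul_eq_mul, ← Finset.sum_filter] at h2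
    exact h2
  have hW1 : aw A (x i0) ≤ ∑ w ∈ W, μ (Sum.inl w) + (r * (l / (4 * k * r)) + r * η) := by
    have h1 : ∀ w ∈ (Finset.univ : Finset (InfinitePlace K)), df (Sum.inl w : Pl K) A (x i0) ≤
        (if l / (4 * k * r) ≤ μ (Sum.inl w) then μ (Sum.inl w) else 0) + (l / (4 * k * r) + η) := by
      intro w _
      obtain ⟨i, hi⟩ := hμex (Sum.inl w)
      have h2 := (le_abs_self _).trans (hnear i0 i (Sum.inl w) (inl_mem_Spl S w) A)
      have h5 : 0 ≤ l / (4 * k * r) := by positivity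
      split_ifs with h3
      · linarith
      · linarith
    have h2 := Finset.sum_le_sum h1
    rw [Finset.sum_add_distrib, Finset.sum_const, nsmul_eq_mul, ← Finset.sum_filter,
      Finset.card_univ, ← hrd] at h2
    unfold aw
    refine h2.trans (le_of_eq ?_)
    ring
  have hwt := (hP i0).wt
  have hsc := (sx i0).1
  have h1 : l / k ≤ hgt (x i0) / k := div_le_div_of_nonneg_right hsc hk0.le
  have e1 : r * (l / (4 * k * r)) = l / (4 * k) := by field_simp
  have e2 : (r : ℝ) * η + S.card * η = l / (16 * k) := by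
    rw [← add_mul, ← htr, htη]
  have h2 : ∑ v ∈ T, -Real.log (Real.exp (-μ (Sum.inr v))) = ∑ v ∈ T, μ (Sum.inr v) :=
    Finset.sum_congr rfl fun v _ => by rw [Real.log_exp, neg_neg]
  have h3 : ∑ w ∈ W, (w.mult : ℝ) * -Real.log (2 * Real.exp (-(μ (Sum.inl w) / w.mult))) ≥
      ∑ w ∈ W, μ (Sum.inl w) - dK K * Real.log 2 := by
    have h4 : ∀ w ∈ W, μ (Sum.inl w) - w.mult * Real.log 2 =
        (w.mult : ℝ) * -Real.log (2 * Real.exp (-(μ (Sum.inl w) / w.mult))) := by
      intro w _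
      rw [Real.log_mul (by norm_num) (Real.exp_pos _).ne', Real.log_exp]
      have := (hmulp w).ne'
      field_simp
      ring
    rw [← Finset.sum_congr rfl h4, Finset.sum_sub_distrib, ← Finset.sum_mul]
    have h5 : (∑ w ∈ W, (w.mult : ℝ)) * Real.log 2 ≤ dK K * Real.log 2 := by
      refine mul_le_mul_of_nonneg_right ?_ (Real.log_nonneg (by norm_num))
      exact Finset.sum_le_sum_of_subset_of_nonneg (Finset.subset_univ _) fun w _ _ =>
        Nat.cast_nonneg _
    linarith
  rw [h2] at main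
  have h4 : dK K * Real.log 2 < l / (8 * k) := by
    rw [lt_div_iff₀ (by positivity)]
    linarith
  have e3 : l / (4 * k) = l / k / 4 := by field_simp
  have e4 : l / (16 * k) = l / k / 16 := by field_simp
  have e5 : l / (8 * k) = l / k / 8 := by field_simp
  have e6 : l / (2 * k) = l / k / 2 := by field_simp
  rw [e1, e3] at hW1
  rw [e4] at e2
  rw [e5] at h4
  rw [e6] at hfin
  have hlk : 0 < l / k := by positivity
  have hwt' : hgt (x i0) / k ≤ aw A (x i0) + ∑ v ∈ S, df (Sum.inr v : Pl K) A (x i0) := hwt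
  linarith

end Pool.Agent.TH876.KR
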