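import Mathlib
import Pool.Agent.H59.L.S8.TH876.KR.Def

set_option autoImplicit false

/-!
# Points with given finite defects on two sides

The points of height at most `B` whose defects on two of the three sides are given at every prime
are few: the ratios of the two coordinates differ by units whose logarithms are `O(B)`.
-/

namespace Pool.Agent.TH876.KR

open NumberField IsDedekindDomain Finset Pool.Agent.H691R3 Pool.Agent.TH876.Loc

variable {K : Type} [Field K] [NumberField K]

variable (K) in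
/-- the units all of whose logarithms are at most `1` in absolute value are finite in number -/
theorem small_finite : {q : K | q ≠ 0 ∧ (∀ v : Pr K, fv v q = 1) ∧
    ∀ w : InfinitePlace K, |lg (Sum.inl w : Pl K) q| ≤ 1}.Finite := by
  refine (NumberField.finite_setOfPred_logHeight₁_le K (Fintype.card (InfinitePlace K))).subset ?_
  rintro q ⟨hq, hf, hi⟩
  show Height.logHeight₁ q ≤ _
  rw [NumberField.logHeight₁_eq]
  have h1 : ∑ᶠ v : FinitePlace K, Real.posLog (v q) = 0 := by
    rw [← finsum_comp_equiv (FinitePlace.equivHeightOneSpectrum (K := K)).symm]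
    refine finsum_eq_zero_of_forall_eq_zero fun v => ?_
    show Real.posLog (fv v q) = 0
    rw [hf v, Real.posLog_one]
  rw [h1, add_zero]
  calc ∑ w : InfinitePlace K, (w.mult : ℝ) * Real.posLog (w q)
      ≤ ∑ _w : InfinitePlace K, (1 : ℝ) := by
        refine Finset.sum_le_sum fun w _ => ?_
        have h2 := (abs_le.1 (hi w)).2
        have h3 : lg (Sum.inl w : Pl K) q = (w.mult : ℝ) * Real.log (w q) := rfl
        rw [h3] at h2
        rw [Real.posLog_apply]
        rcases le_total 0 (Real.log (w q)) with h | h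
        · rw [max_eq_right h]
          exact h2
        · rw [max_eq_left h, mul_zero]
          exact zero_le_one
    _ = Fintype.card (InfinitePlace K) := by simp

variable (K) in
/-- the number of units whose logarithms are at most `R` in absolute value -/
theorem units_card : ∃ C₀ : ℕ, ∀ R : ℝ, 0 ≤ R → ∀ U : Finset K,
    (∀ u ∈ U, u ≠ 0 ∧ (∀ v : Pr K, fv v u = 1) ∧
      ∀ w : InfinitePlace K, |lg (Sum.inl w : Pl K) u| ≤ R) →
    U.card ≤ C₀ * (2 * ⌈R⌉₊ + 1) ^ Fintype.card (InfinitePlace K) := by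
  classical
  refine ⟨(small_finite K).toFinset.card, fun R hR U hU => ?_⟩
  set c : K → (InfinitePlace K → ℤ) := fun u w => ⌊lg (Sum.inl w : Pl K) u⌋ with hc
  have himg : (U.image c).card ≤ (2 * ⌈R⌉₊ + 1) ^ Fintype.card (InfinitePlace K) := by
    have hsub : U.image c ⊆ Fintype.piFinset fun _ : InfinitePlace K =>
        Finset.Icc (-(⌈R⌉₊ : ℤ)) (⌈R⌉₊ : ℤ) := by
      intro f hf
      obtain ⟨u, hu, rfl⟩ := Finset.mem_image.1 hf
      rw [Fintype.mem_piFinset]
      intro w
      have h1 := abs_le.1 ((hU u hu).2.2 w)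
      have h2 : R ≤ (⌈R⌉₊ : ℝ) := Nat.le_ceil R
      rw [Finset.mem_Icc]
      constructor
      · rw [hc, Int.le_floor]
        push_cast
        linarith [h1.1]
      · have h3 : ((⌊lg (Sum.inl w : Pl K) u⌋ : ℤ) : ℝ) ≤ ((⌈R⌉₊ : ℤ) : ℝ) := by
          push_cast
          linarith [h1.2, Int.floor_le (lg (Sum.inl w : Pl K) u)]
        exact_mod_cast h3
    refine (Finset.card_le_card hsub).trans (le_of_eq ?_)
    rw [Fintype.card_piFinset, Finset.prod_const, Finset.card_univ, Int.card_Icc]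
    congr 1
    omega
  have hfib : ∀ a ∈ U.image c, (U.filter fun x => c x = a).card ≤
      (small_finite K).toFinset.card := by
    intro a ha
    obtain ⟨u₀, hu₀, rfl⟩ := Finset.mem_image.1 ha
    have h0 := (hU u₀ hu₀).1
    refine Finset.card_le_card_of_injOn (fun u => u / u₀) ?_ ?_
    · intro u hu
      rw [Finset.mem_coe, Finset.mem_filter] at hu
      obtain ⟨huU, hcu⟩ := hu
      have hune := (hU u huU).1
      rw [Finset.mem_coe, Set.Finite.mem_toFinset]
      refine ⟨div_ne_zero hune h0, fun v => ?_, fun w => ?_⟩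
      · show fv v (u / u₀) = 1
        rw [map_div₀, (hU u huU).2.1 v, (hU u₀ hu₀).2.1 v, div_one]
      · show |lg (Sum.inl w : Pl K) (u / u₀)| ≤ 1
        rw [lg_div _ hune h0]
        have h5 : ⌊lg (Sum.inl w : Pl K) u⌋ = ⌊lg (Sum.inl w : Pl K) u₀⌋ := congrFun hcu w
        exact (Int.abs_sub_lt_one_of_floor_eq_floor h5).le
    · intro u _ u' _ he
      have he' : u / u₀ = u' / u₀ := he
      rwa [div_left_inj' h0] at he'
  calc U.card ≤ (small_finite K).toFinset.card * (U.image c).card :=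
        Finset.card_le_mul_card_image U _ hfib
    _ ≤ _ := Nat.mul_le_mul_left _ himg

theorem df_le_hgt_inf {x : K} (hx : Pt x) (w : InfinitePlace K) (i : Fin 3) :
    df (Sum.inl w : Pl K) i x ≤ hgt x := by
  rw [← sum_df hx (Finset.Subset.refl (sp x)) i]
  exact Finset.single_le_sum (f := fun v => df v i x) (fun v _ => df_nonneg v i hx)
    (inl_mem_Spl _ w)

theorem qt_inj {i j : Fin 3} (hij : i ≠ j) {x y : K} (hx : Pt x) (hy : Pt y)
    (h : qt i j x = qt i j y) : x = y := by
  have h1 : L i x * L j y = L i y * L j x := by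
    unfold qt at h
    rw [neg_inj, div_eq_div_iff (L_ne hx j) (L_ne hy j)] at h
    exact h
  have e0 : ∀ z : K, L 0 z = z := fun _ => rfl
  have e1 : ∀ z : K, L 1 z = 1 := fun _ => rfl
  have e2 : ∀ z : K, L 2 z = -z - 1 := fun _ => rfl
  fin_cases i <;> fin_cases j
  · exact absurd rfl hij
  · change L 0 x * L 1 y = L 0 y * L 1 x at h1
    rw [e0, e0, e1, e1] at h1
    linear_combination h1
  · change L 0 x * L 2 y = L 0 y * L 2 x at h1
    rw [e0, e0, e2, e2] at h1
    linear_combination -h1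
  · change L 1 x * L 0 y = L 1 y * L 0 x at h1
    rw [e0, e0, e1, e1] at h1
    linear_combination -h1
  · exact absurd rfl hij
  · change L 1 x * L 2 y = L 1 y * L 2 x at h1
    rw [e1, e1, e2, e2] at h1
    linear_combination h1
  · change L 2 x * L 0 y = L 2 y * L 0 x at h1
    rw [e0, e0, e2, e2] at h1
    linear_combination h1
  · change L 2 x * L 1 y = L 2 y * L 1 x at h1
    rw [e1, e1, e2, e2] at h1
    linear_combination -h1
  · exact absurd rfl hij

variable (K) in
/-- the points of height at most `B` with the same finite defects on two sides are few -/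
theorem fiber_small : ∃ C : ℝ, 1 ≤ C ∧ ∀ B : ℝ, 1 ≤ B → ∀ i j : Fin 3, i ≠ j → ∀ F : Finset K,
    (∀ x ∈ F, Pt x ∧ hgt x ≤ B) →
    (∀ x ∈ F, ∀ y ∈ F, ∀ v : Pr K, df (Sum.inr v : Pl K) i x = df (Sum.inr v : Pl K) i y ∧
      df (Sum.inr v : Pl K) j x = df (Sum.inr v : Pl K) j y) →
    (F.card : ℝ) ≤ C * B ^ C := by
  classical
  obtain ⟨C₀, hC₀⟩ := units_card K
  set r : ℕ := Fintype.card (InfinitePlace K) with hr
  refine ⟨1 + r + C₀ * 7 ^ r, ?_, ?_⟩
  · have : (0 : ℝ) ≤ r + C₀ * 7 ^ r := by positivity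
    linarith
  intro B hB i j hij F hF hdf
  set C : ℝ := 1 + r + C₀ * 7 ^ r with hC
  have hCr : (r : ℝ) ≤ C := by
    have : (0 : ℝ) ≤ C₀ * 7 ^ r := by positivity
    linarith
  have hCC : (C₀ : ℝ) * 7 ^ r ≤ C := by
    have : (0 : ℝ) ≤ r := Nat.cast_nonneg r
    linarith
  rcases F.eq_empty_or_nonempty with rfl | ⟨x₀, hx₀⟩
  · rw [Finset.card_empty, Nat.cast_zero]
    have : (0 : ℝ) ≤ C := by
      have : (0 : ℝ) ≤ r := Nat.cast_nonneg r
      linarith
    positivity
  have hP₀ := (hF x₀ hx₀).1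
  have hq₀ := qt_ne hP₀ i j
  have hinj : Set.InjOn (fun x => qt i j x / qt i j x₀) F := by
    intro x hx y hy he
    have he' : qt i j x / qt i j x₀ = qt i j y / qt i j x₀ := he
    rw [div_left_inj' hq₀] at he'
    exact qt_inj hij (hF x hx).1 (hF y hy).1 he'
  have hqb : ∀ x ∈ F, ∀ w : InfinitePlace K, |lg (Sum.inl w : Pl K) (qt i j x)| ≤ B := by
    intro x hx w
    have hP := (hF x hx).1
    have hb := (hF x hx).2
    rw [lg_qt hP, abs_le]
    have h1 := df_nonneg (Sum.inl w : Pl K) i hP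
    have h2 := df_nonneg (Sum.inl w : Pl K) j hP
    have h3 := df_le_hgt_inf hP w i
    have h4 := df_le_hgt_inf hP w j
    constructor <;> linarith
  have hcard := hC₀ (2 * B) (by linarith) (F.image fun x => qt i j x / qt i j x₀) ?_
  · rw [Finset.card_image_of_injOn hinj] at hcard
    have h1 : ((2 * ⌈2 * B⌉₊ + 1 : ℕ) : ℝ) ≤ 7 * B := by
      have h2 : (⌈2 * B⌉₊ : ℝ) < 2 * B + 1 := Nat.ceil_lt_add_one (by linarith)
      push_cast
      linarith
    calc (F.card : ℝ) ≤ ((C₀ * (2 * ⌈2 * B⌉₊ + 1) ^ r : ℕ) : ℝ) := by exact_mod_cast hcard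
      _ = C₀ * ((2 * ⌈2 * B⌉₊ + 1 : ℕ) : ℝ) ^ r := by push_cast; ring
      _ ≤ C₀ * (7 * B) ^ r := by
          refine mul_le_mul_of_nonneg_left ?_ (Nat.cast_nonneg _)
          exact pow_le_pow_left₀ (Nat.cast_nonneg _) h1 r
      _ = (C₀ * 7 ^ r) * B ^ r := by rw [mul_pow]; ring
      _ ≤ C * B ^ C := by
          refine mul_le_mul hCC ?_ (by positivity) (le_trans (by positivity) hCC)
          rw [← Real.rpow_natCast]
          exact Real.rpow_le_rpow_of_exponent_le hB hCr
  · intro u hu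
    obtain ⟨x, hx, rfl⟩ := Finset.mem_image.1 hu
    have hP := (hF x hx).1
    have hq := qt_ne hP i j
    refine ⟨div_ne_zero hq hq₀, fun v => ?_, fun w => ?_⟩
    · have h1 : lg (Sum.inr v : Pl K) (qt i j x / qt i j x₀) = 0 := by
        rw [lg_div _ hq hq₀, lg_qt hP, lg_qt hP₀, (hdf x hx x₀ hx₀ v).1, (hdf x hx x₀ hx₀ v).2]
        ring
      have h2 : lg (Sum.inr v : Pl K) (qt i j x / qt i j x₀) =
          1 * Real.log (fv v (qt i j x / qt i j x₀)) := rfl
      rw [h2, one_mul] at h1
      exact Real.eq_one_of_pos_of_log_eq_zero (fv_pos v (div_ne_zero hq hq₀)) h1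
    · show |lg (Sum.inl w : Pl K) (qt i j x / qt i j x₀)| ≤ 2 * B
      rw [lg_div _ hq hq₀]
      have h1 := hqb x hx w
      have h2 := hqb x₀ hx₀ w
      rw [abs_le] at h1 h2 ⊢
      constructor <;> linarith [h1.1, h1.2, h2.1, h2.2]

end Pool.Agent.TH876.KR
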