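import Mathlib
import Pool.Agent.H59.L.S8.TH876.KR.Def

set_option autoImplicit false
set_option linter.unusedSectionVars false

namespace Pool.Agent.TH876.KR

open NumberField IsDedekindDomain Finset

section Fin

variable {K : Type} [Field K] [NumberField K]

/-- the linear form vanishing at the point `(a 0 : a 1)` -/
def form (a x : Fin 2 → K) : K := a 0 * x 1 - a 1 * x 0

/-- the local height of `(x 0 : x 1)` relative to the point `(a 0 : a 1)`, at the prime `v` -/
noncomputable def localHeight (v : HeightOneSpectrum (𝓞 K)) (a x : Fin 2 → K) : ℝ :=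
  Real.log (max (FinitePlace.mk v (a 0)) (FinitePlace.mk v (a 1)) *
    max (FinitePlace.mk v (x 0)) (FinitePlace.mk v (x 1)) / FinitePlace.mk v (form a x))

/-- the truncated counting function relative to `D = a 0 + ... + a (q - 1)`: the sum of
`log N(v)` over the primes `v` outside `S` where the local height of `D` is positive -/
noncomputable def counting (S : Set (HeightOneSpectrum (𝓞 K))) {q : ℕ} (a : Fin q → Fin 2 → K)
    (x : Fin 2 → K) : ℝ :=
  ∑ᶠ v ∈ {v : HeightOneSpectrum (𝓞 K) | v ∉ S ∧ 0 < ∑ i, localHeight v (a i) x},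
    Real.log (Ideal.absNorm v.asIdeal : ℝ)

/-- the `K`-rational points `P` off `D` of height at most `H` with `exp N^(1)_S(D, P) ≤ X` -/
def Points (S : Set (HeightOneSpectrum (𝓞 K))) {q : ℕ} (a : Fin q → Fin 2 → K) (X H : ℝ) :
    Set (Projectivization K (Fin 2 → K)) :=
  {P | ∃ (x : Fin 2 → K) (hx : x ≠ 0), P = Projectivization.mk K x hx ∧
    (∀ i, form (a i) x ≠ 0) ∧ Real.exp (counting S a x) ≤ X ∧ Height.logHeight x ≤ H}

end Fin

section Aux

open Pool.Agent.H691R3 Pool.Agent.TH876.Loc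

variable {K : Type} [Field K] [NumberField K]

/-- the larger absolute value of the two coordinates -/
noncomputable def m2 (v : Pr K) (x : Fin 2 → K) : ℝ := max (fv v (x 0)) (fv v (x 1))

theorem fv_sub_le (v : Pr K) (a b : K) : fv v (a - b) ≤ max (fv v a) (fv v b) := by
  rw [sub_eq_add_neg, ← (fv v).map_neg b]
  exact fv_na v a (-b)

theorem form_le (v : Pr K) (a x : Fin 2 → K) : fv v (form a x) ≤ m2 v a * m2 v x := by
  unfold form
  refine (fv_sub_le v _ _).trans (max_le ?_ ?_)
  · rw [map_mul]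
    exact mul_le_mul (le_max_left _ _) (le_max_right _ _) ((fv v).nonneg _)
      (((fv v).nonneg _).trans (le_max_left _ _))
  · rw [map_mul]
    exact mul_le_mul (le_max_right _ _) (le_max_left _ _) ((fv v).nonneg _)
      (((fv v).nonneg _).trans (le_max_left _ _))

theorem localHeight_eq (v : Pr K) (a x : Fin 2 → K) :
    localHeight v a x = Real.log (m2 v a * m2 v x / fv v (form a x)) := rfl

theorem localHeight_nonneg (v : Pr K) {a x : Fin 2 → K} (h : form a x ≠ 0) :
    0 ≤ localHeight v a x := by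
  rw [localHeight_eq]
  refine Real.log_nonneg ?_
  rw [le_div_iff₀ ((fv v).pos h), one_mul]
  exact form_le v a x

/-- if the local height vanishes, the form is as large as possible -/
theorem form_eq_of_not_pos (v : Pr K) {a x : Fin 2 → K} (h : form a x ≠ 0)
    (h0 : ¬ 0 < localHeight v a x) : fv v (form a x) = m2 v a * m2 v x := by
  refine le_antisymm (form_le v a x) ?_
  by_contra hcon
  apply h0
  rw [localHeight_eq]
  refine Real.log_pos ?_
  rw [one_lt_div ((fv v).pos h)]
  exact not_le.1 hcon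

theorem localHeight_pos_iff (v : Pr K) {a x : Fin 2 → K} (h : form a x ≠ 0) :
    0 < localHeight v a x ↔ fv v (form a x) < m2 v a * m2 v x := by
  constructor
  · intro h0
    by_contra hcon
    have h1 := le_antisymm (form_le v a x) (not_lt.1 hcon)
    rw [localHeight_eq, h1, div_self, Real.log_one] at h0
    · exact lt_irrefl _ h0
    · rw [← h1]
      exact ((fv v).pos h).ne'
  · intro h0
    rw [localHeight_eq]
    exact Real.log_pos ((one_lt_div ((fv v).pos h)).2 h0)

/-- a prime outside of which everything is a unit -/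
def Good (v : Pr K) (x : Fin 2 → K) : Prop := ∀ j, x j ≠ 0 → fv v (x j) = 1

theorem m2_of_good {v : Pr K} {x : Fin 2 → K} (hx : x ≠ 0) (h : Good v x) : m2 v x = 1 := by
  unfold m2
  have key : ∀ j, fv v (x j) ≤ 1 := by
    intro j
    by_cases hj : x j = 0
    · rw [hj, map_zero]
      exact zero_le_one
    · exact (h j hj).le
  by_cases h0 : x 0 = 0
  · have h1 : x 1 ≠ 0 := by
      intro h1
      apply hx
      funext j
      fin_cases j
      · exact h0
      · exact h1
    rw [h 1 h1]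
    exact max_eq_right (key 0)
  · rw [h 0 h0]
    exact max_eq_left (key 1)

theorem good_finite (x : Fin 2 → K) : {v : Pr K | ¬ Good v x}.Finite := by
  classical
  have h : {v : Pr K | ¬ Good v x} ⊆ ⋃ j : Fin 2, {v : Pr K | x j ≠ 0 ∧ fv v (x j) ≠ 1} := by
    intro v hv
    rw [Set.mem_ofPred_eq] at hv
    unfold Good at hv
    push Not at hv
    obtain ⟨j, h1, h2⟩ := hv
    exact Set.mem_iUnion.2 ⟨j, h1, h2⟩
  refine (Set.finite_iUnion fun j => ?_).subset h
  by_cases hj : x j = 0
  · refine Set.Finite.subset Set.finite_empty ?_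
    intro v hv
    exact absurd hj hv.1
  · exact (fv_support_finite hj).subset fun v hv => hv.2

/-- the three term identity -/
theorem pluecker (a b c x : Fin 2 → K) :
    form b c * form a x + form c a * form b x + form a b * form c x = 0 := by
  unfold form; ring

theorem recover0 (a b x : Fin 2 → K) : b 0 * form a x - a 0 * form b x = form a b * x 0 := by
  unfold form; ring

theorem recover1 (a b x : Fin 2 → K) : b 1 * form a x - a 1 * form b x = form a b * x 1 := by
  unfold form; ring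

/-- at a good prime at most one of the local heights is positive -/
theorem two_forms (v : Pr K) {a b x : Fin 2 → K} (ha : m2 v a = 1) (hb : m2 v b = 1)
    (hab : fv v (form a b) = 1) (h1 : fv v (form a x) < m2 v x)
    (h2 : fv v (form b x) < m2 v x) : False := by
  have key : ∀ j : Fin 2, fv v (x j) < m2 v x := by
    intro j
    have e : b j * form a x - a j * form b x = form a b * x j := by
      fin_cases j
      · exact recover0 a b x
      · exact recover1 a b x
    have hbj : fv v (b j) ≤ 1 := by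
      rw [← hb]
      fin_cases j
      · exact le_max_left _ _
      · exact le_max_right _ _
    have haj : fv v (a j) ≤ 1 := by
      rw [← ha]
      fin_cases j
      · exact le_max_left _ _
      · exact le_max_right _ _
    have h3 : fv v (x j) = fv v (b j * form a x - a j * form b x) := by
      rw [e, map_mul, hab, one_mul]
    rw [h3]
    refine lt_of_le_of_lt (fv_sub_le v _ _) (max_lt ?_ ?_)
    · rw [map_mul]
      calc fv v (b j) * fv v (form a x) ≤ 1 * fv v (form a x) :=
            mul_le_mul_of_nonneg_right hbj ((fv v).nonneg _)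
        _ < m2 v x := by rw [one_mul]; exact h1
    · rw [map_mul]
      calc fv v (a j) * fv v (form b x) ≤ 1 * fv v (form b x) :=
            mul_le_mul_of_nonneg_right haj ((fv v).nonneg _)
        _ < m2 v x := by rw [one_mul]; exact h2
  have h4 : m2 v x < m2 v x := max_lt (key 0) (key 1)
  exact lt_irrefl _ h4

/-- the height is the height of Mathlib of the triple of coordinates -/
theorem hgt_le_logHeight {t : K} (ht : Pt t) :
    hgt t ≤ Height.logHeight (fun i : Fin 3 => L i t) := by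
  have hne : (fun i : Fin 3 => L i t) ≠ 0 := by
    intro h
    have := congrFun h 1
    exact L_ne ht 1 this
  have hsup : ∀ v : Pl K, (⨆ i : Fin 3, av v (L i t)) = M v t := by
    intro v
    refine le_antisymm (ciSup_le fun i => av_L_le v t i) ?_
    obtain ⟨i, hi⟩ := M_attained v t
    rw [hi]
    exact le_ciSup (f := fun i : Fin 3 => av v (L i t)) (Set.finite_range _).bddAbove i
  have hM0 : ∀ v : Pl K, 0 < M v t := fun v => lt_of_lt_of_le one_pos (one_le_M v t)
  rw [Height.logHeight_eq_log_mulHeight, NumberField.mulHeight_eq hne]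
  have h1 : ∏ᶠ v : FinitePlace K, ⨆ i : Fin 3, v (L i t) = ∏ v ∈ sp t, M (Sum.inr v : Pl K) t := by
    rw [← finprod_comp_equiv (FinitePlace.equivHeightOneSpectrum (K := K)).symm]
    have h2 : ∀ v : Pr K, (⨆ i : Fin 3,
        ((FinitePlace.equivHeightOneSpectrum (K := K)).symm v) (L i t)) = M (Sum.inr v : Pl K) t :=
      fun v => hsup (Sum.inr v)
    simp_rw [h2]
    refine finprod_eq_prod_of_mulSupport_subset _ ?_
    intro v hv
    by_contra h
    rw [Function.mem_mulSupport] at hv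
    apply hv
    obtain ⟨i, hi⟩ := M_attained (Sum.inr v : Pl K) t
    rw [hi]
    exact fv_L ht h i
  have h3 : ∏ w : InfinitePlace K, (⨆ i : Fin 3, w (L i t)) ^ w.mult =
      ∏ w : InfinitePlace K, M (Sum.inl w : Pl K) t ^ w.mult :=
    Finset.prod_congr rfl fun w _ => by
      have := hsup (Sum.inl w)
      rw [← this]
      rfl
  rw [h1, h3, Real.log_mul, Real.log_prod, Real.log_prod]
  · unfold hgt
    rw [sum_Spl]
    refine le_of_eq ?_
    congr 1
    · refine Finset.sum_congr rfl fun w _ => ?_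
      rw [Real.log_pow]
      rfl
    · refine Finset.sum_congr rfl fun v _ => ?_
      show 1 * Real.log (M (Sum.inr v : Pl K) t) = _
      rw [one_mul]
  · exact fun v _ => (hM0 _).ne'
  · exact fun w _ => pow_ne_zero _ (hM0 _).ne'
  · exact Finset.prod_ne_zero_iff.2 fun w _ => pow_ne_zero _ (hM0 _).ne'
  · exact Finset.prod_ne_zero_iff.2 fun v _ => (hM0 _).ne'

/-- the three coefficients -/
def cc (a : Fin 3 → Fin 2 → K) : Fin 3 → K := ![form (a 1) (a 2), form (a 2) (a 0), form (a 0) (a 1)]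

/-- the affine coordinate of a point of the projective line relative to three points -/
noncomputable def tt (a : Fin 3 → Fin 2 → K) (x : Fin 2 → K) : K :=
  (cc a 0 * form (a 0) x) / (cc a 1 * form (a 1) x)

theorem cc_ne {a : Fin 3 → Fin 2 → K} (ha : ∀ i j, i ≠ j → form (a i) (a j) ≠ 0) (i : Fin 3) :
    cc a i ≠ 0 := by
  fin_cases i
  · exact ha 1 2 (by decide)
  · exact ha 2 0 (by decide)
  · exact ha 0 1 (by decide)

theorem cc_sum (a : Fin 3 → Fin 2 → K) (x : Fin 2 → K) :
    cc a 0 * form (a 0) x + cc a 1 * form (a 1) x + cc a 2 * form (a 2) x = 0 :=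
  pluecker (a 0) (a 1) (a 2) x

theorem L_tt {a : Fin 3 → Fin 2 → K} (ha : ∀ i j, i ≠ j → form (a i) (a j) ≠ 0) {x : Fin 2 → K}
    (hx : ∀ i, form (a i) x ≠ 0) (i : Fin 3) :
    L i (tt a x) = (cc a 1 * form (a 1) x)⁻¹ * (cc a i * form (a i) x) := by
  have h1 : cc a 1 * form (a 1) x ≠ 0 := mul_ne_zero (cc_ne ha 1) (hx 1)
  have h2 := cc_sum a x
  unfold tt
  fin_cases i
  · show (cc a 0 * form (a 0) x) / (cc a 1 * form (a 1) x) = _
    rw [div_eq_mul_inv, mul_comm]
    rfl
  · show (1 : K) = _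
    exact (inv_mul_cancel₀ h1).symm
  · show -((cc a 0 * form (a 0) x) / (cc a 1 * form (a 1) x)) - 1 = (cc a 1 * form (a 1) x)⁻¹ *
      (cc a 2 * form (a 2) x)
    have h3 : cc a 2 * form (a 2) x = -(cc a 0 * form (a 0) x + cc a 1 * form (a 1) x) := by
      linear_combination h2
    rw [h3, div_eq_mul_inv]
    linear_combination inv_mul_cancel₀ h1

theorem Pt_tt {a : Fin 3 → Fin 2 → K} (ha : ∀ i j, i ≠ j → form (a i) (a j) ≠ 0) {x : Fin 2 → K}
    (hx : ∀ i, form (a i) x ≠ 0) : Pt (tt a x) := by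
  have h1 : ∀ i, cc a i * form (a i) x ≠ 0 := fun i => mul_ne_zero (cc_ne ha i) (hx i)
  constructor
  · exact div_ne_zero (h1 0) (h1 1)
  · intro h
    have h2 := L_tt ha hx 2
    have h3 : L 2 (tt a x) = 0 := by
      show -(tt a x) - 1 = 0
      linear_combination -h
    rw [h3] at h2
    exact mul_ne_zero (inv_ne_zero (h1 1)) (h1 2) h2.symm

/-- the matrix of the three forms -/
def mat (a : Fin 3 → Fin 2 → K) : Fin 3 × Fin 2 → K := fun p => cc a p.1 * ![-(a p.1 1), a p.1 0] p.2

/-- the height of the affine coordinate -/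
theorem hgt_tt {a : Fin 3 → Fin 2 → K} (ha : ∀ i j, i ≠ j → form (a i) (a j) ≠ 0)
    {x : Fin 2 → K} (hx : ∀ i, form (a i) x ≠ 0) :
    hgt (tt a x) ≤ (Height.totalWeight K * Real.log 2 + Height.logHeight (mat a)) +
      Height.logHeight x := by
  refine (hgt_le_logHeight (Pt_tt ha hx)).trans ?_
  have h1 : (fun i : Fin 3 => L i (tt a x)) =
      (cc a 1 * form (a 1) x)⁻¹ • (fun i : Fin 3 => ∑ j, mat a (i, j) * x j) := by
    funext i
    rw [L_tt ha hx i, Pi.smul_apply, smul_eq_mul]
    congr 1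
    rw [Fin.sum_univ_two]
    unfold mat form
    simp only [Matrix.cons_val_zero, Matrix.cons_val_one]
    ring
  rw [h1, Height.logHeight_smul_eq_logHeight _
    (inv_ne_zero (mul_ne_zero (cc_ne ha 1) (hx 1)))]
  refine (Height.logHeight_linearMap_apply_le (mat a) x).trans ?_
  rw [Nat.card_eq_fintype_card, Fintype.card_fin]
  push_cast
  exact le_rfl

/-- the primes of bad reduction of the three points -/
def GoodPr {n : ℕ} (a : Fin n → Fin 2 → K) (v : Pr K) : Prop :=
  (∀ i, m2 v (a i) = 1) ∧ ∀ i j, i ≠ j → fv v (form (a i) (a j)) = 1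

theorem sp_tt {a : Fin 3 → Fin 2 → K} (ha : ∀ i j, i ≠ j → form (a i) (a j) ≠ 0)
    {x : Fin 2 → K} (hx : ∀ i, form (a i) x ≠ 0) {v : Pr K} (hg : GoodPr a v)
    (h : ∀ i, ¬ 0 < localHeight v (a i) x) : v ∉ sp (tt a x) := by
  have h1 : ∀ i, fv v (form (a i) x) = m2 v x := by
    intro i
    rw [form_eq_of_not_pos v (hx i) (h i), hg.1 i, one_mul]
  have h2 : ∀ i, fv v (cc a i) = 1 := by
    intro i
    fin_cases i
    · exact hg.2 1 2 (by decide)
    · exact hg.2 2 0 (by decide)
    · exact hg.2 0 1 (by decide)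
  have hm : m2 v x ≠ 0 := by
    rw [← h1 0]
    exact ((fv v).pos (hx 0)).ne'
  have h3 : ∀ i, fv v (L i (tt a x)) = 1 := by
    intro i
    rw [L_tt ha hx i, map_mul, map_inv₀, map_mul, map_mul, h1, h1, h2, h2, one_mul,
      inv_mul_cancel₀ hm]
  rw [mem_sp (Pt_tt ha hx), not_not]
  refine ⟨h3 0, ?_⟩
  have h4 := h3 2
  have e : L 2 (tt a x) = -(tt a x + 1) := by show -(tt a x) - 1 = _; ring
  rw [e, (fv v).map_neg] at h4
  exact h4

/-- the affine coordinate determines the point -/
theorem tt_inj {a : Fin 3 → Fin 2 → K} (ha : ∀ i j, i ≠ j → form (a i) (a j) ≠ 0)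
    {x y : Fin 2 → K} (hx : ∀ i, form (a i) x ≠ 0) (hy : ∀ i, form (a i) y ≠ 0)
    (h : tt a x = tt a y) : ∃ c : K, c • y = x := by
  have c0 := cc_ne ha 0
  have c1 := cc_ne ha 1
  have hab : form (a 0) (a 1) ≠ 0 := ha 0 1 (by decide)
  unfold tt at h
  rw [div_eq_div_iff (mul_ne_zero c1 (hx 1)) (mul_ne_zero c1 (hy 1))] at h
  have h1 : form (a 0) x * form (a 1) y = form (a 0) y * form (a 1) x := by
    have h2 : (cc a 0 * cc a 1) * (form (a 0) x * form (a 1) y) =
        (cc a 0 * cc a 1) * (form (a 0) y * form (a 1) x) := by linear_combination h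
    exact mul_left_cancel₀ (mul_ne_zero c0 c1) h2
  have hy1 := hy 1
  have h0 : form (a 0) x = form (a 1) x / form (a 1) y * form (a 0) y := by
    field_simp
    linear_combination h1
  have h1' : form (a 1) x = form (a 1) x / form (a 1) y * form (a 1) y := by
    field_simp
  refine ⟨form (a 1) x / form (a 1) y, ?_⟩
  funext j
  rw [Pi.smul_apply, smul_eq_mul]
  refine mul_left_cancel₀ hab ?_
  generalize form (a 1) x / form (a 1) y = c at h0 h1' ⊢
  fin_cases j
  · show form (a 0) (a 1) * (c * y 0) = form (a 0) (a 1) * x 0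
    rw [← recover0 (a 0) (a 1) x, h0, h1']
    linear_combination (-c) * recover0 (a 0) (a 1) y
  · show form (a 0) (a 1) * (c * y 1) = form (a 0) (a 1) * x 1
    rw [← recover1 (a 0) (a 1) x, h0, h1']
    linear_combination (-c) * recover1 (a 0) (a 1) y

/-- three of `q` nonnegative numbers are small -/
theorem three_small {q : ℕ} (hq : 3 ≤ q) (l : Fin q → ℝ) (B : ℝ) (h : ∑ i, l i ≤ B) :
    ∃ s : Fin q, ∑ k : Fin 3, l (finRotate q ^ (k : ℕ) • s) ≤ 3 / q * B := by
  have hq0 : (0 : ℝ) < q := by exact_mod_cast (by omega : 0 < q)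
  have : Nonempty (Fin q) := ⟨⟨0, by omega⟩⟩
  by_contra hcon
  push Not at hcon
  have h1 : ∑ s : Fin q, (3 / q * B) < ∑ s : Fin q, ∑ k : Fin 3, l (finRotate q ^ (k : ℕ) • s) :=
    Finset.sum_lt_sum_of_nonempty Finset.univ_nonempty fun s _ => hcon s
  rw [Finset.sum_comm] at h1
  have h2 : ∀ k : Fin 3, ∑ s : Fin q, l (finRotate q ^ (k : ℕ) • s) = ∑ s, l s := fun k =>
    Equiv.sum_comp (finRotate q ^ (k : ℕ)) l
  rw [Finset.sum_congr rfl fun k _ => h2 k, Finset.sum_const, Finset.sum_const, Finset.card_univ,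
    Finset.card_univ, Fintype.card_fin, Fintype.card_fin, nsmul_eq_mul, nsmul_eq_mul] at h1
  have h3 : (q : ℝ) * (3 / q * B) = 3 * B := by field_simp
  rw [h3] at h1
  push_cast at h1
  linarith

theorem rotate_inj {q : ℕ} (hq : 3 ≤ q) (s : Fin q) :
    Function.Injective fun k : Fin 3 => finRotate q ^ (k : ℕ) • s := by
  obtain ⟨n, rfl⟩ : ∃ n, q = n + 1 := ⟨q - 1, by omega⟩
  have key : ∀ k : ℕ, ((finRotate (n + 1) ^ k • s : Fin (n + 1)) : ℕ) = (s + k) % (n + 1) := by
    intro k
    induction k with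
    | zero => simp [Nat.mod_eq_of_lt s.isLt]
    | succ k ih =>
      have h1 : (finRotate (n + 1) ^ (k + 1) • s : Fin (n + 1)) =
          (finRotate (n + 1) ^ k • s : Fin (n + 1)) + 1 := by
        rw [pow_succ', mul_smul]
        exact finRotate_apply _
      rw [h1, Fin.val_add, ih]
      have h2 : ((1 : Fin (n + 1)) : ℕ) = 1 := by
        rw [Fin.val_one']
        exact Nat.mod_eq_of_lt (by omega)
      rw [h2, Nat.mod_add_mod, add_assoc]
  intro i j hij
  have h1 := congrArg (fun z : Fin (n + 1) => (z : ℕ)) hij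
  simp only [key] at h1
  have h2 : (i : ℕ) ≡ j [MOD (n + 1)] := Nat.ModEq.add_left_cancel' (s : ℕ) h1
  have h3 := Nat.mod_eq_of_lt (show (i : ℕ) < n + 1 by omega)
  have h4 := Nat.mod_eq_of_lt (show (j : ℕ) < n + 1 by omega)
  unfold Nat.ModEq at h2
  rw [h3, h4] at h2
  exact Fin.ext h2

/-- three consecutive points -/
def tri {q : ℕ} (a : Fin q → Fin 2 → K) (s : Fin q) : Fin 3 → Fin 2 → K :=
  fun k => a (finRotate q ^ (k : ℕ) • s)

theorem tri_ne {q : ℕ} (hq : 3 ≤ q) {a : Fin q → Fin 2 → K}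
    (ha : ∀ i j, i ≠ j → form (a i) (a j) ≠ 0) (s : Fin q) (i j : Fin 3) (hij : i ≠ j) :
    form (tri a s i) (tri a s j) ≠ 0 :=
  ha _ _ fun h => hij (rotate_inj hq s h)

theorem tri_good {q : ℕ} (hq : 3 ≤ q) {a : Fin q → Fin 2 → K} {v : Pr K} (h : GoodPr a v)
    (s : Fin q) : GoodPr (tri a s) v :=
  ⟨fun _ => h.1 _, fun _ _ hij => h.2 _ _ fun h' => hij (rotate_inj hq s h')⟩

theorem ne_zero_of_form {a b : Fin 2 → K} (h : form a b ≠ 0) : a ≠ 0 := by
  rintro rfl
  apply h
  unfold form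
  simp

theorem bad_finite {q : ℕ} (hq : 3 ≤ q) (S : Set (Pr K)) (hS : S.Finite) {a : Fin q → Fin 2 → K}
    (ha : ∀ i j, i ≠ j → form (a i) (a j) ≠ 0) :
    ∃ T : Finset (Pr K), ∀ v, v ∉ T → v ∉ S ∧ GoodPr a v := by
  classical
  have hne : ∀ i, a i ≠ 0 := by
    intro i
    have : ∃ j : Fin q, i ≠ j := by
      by_cases h : i = ⟨0, by omega⟩
      · refine ⟨⟨1, by omega⟩, ?_⟩
        rw [h]
        intro h'
        have := congrArg Fin.val h'
        simp at this
      · exact ⟨_, h⟩
    obtain ⟨j, hj⟩ := this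
    exact ne_zero_of_form (ha i j hj)
  have h1 : (⋃ i, {v : Pr K | ¬ Good v (a i)}).Finite :=
    Set.finite_iUnion fun i => good_finite (a i)
  have h2 : (⋃ p : Fin q × Fin q, {v : Pr K | p.1 ≠ p.2 ∧ fv v (form (a p.1) (a p.2)) ≠ 1}).Finite := by
    refine Set.finite_iUnion fun p => ?_
    by_cases hp : p.1 = p.2
    · refine Set.Finite.subset Set.finite_empty ?_
      intro v hv
      exact absurd hp hv.1
    · exact (fv_support_finite (ha _ _ hp)).subset fun v hv => hv.2
  refine ⟨(hS.union (h1.union h2)).toFinset, ?_⟩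
  intro v hv
  rw [Set.Finite.mem_toFinset] at hv
  refine ⟨fun h => hv (Or.inl h), ?_, ?_⟩
  · intro i
    refine m2_of_good (hne i) ?_
    by_contra h
    exact hv (Or.inr (Or.inl (Set.mem_iUnion.2 ⟨i, h⟩)))
  · intro i j hij
    by_contra h
    exact hv (Or.inr (Or.inr (Set.mem_iUnion.2 ⟨(i, j), hij, h⟩)))

theorem good_index {q : ℕ} (hq : 3 ≤ q) (S : Set (Pr K)) {a : Fin q → Fin 2 → K}
    (ha : ∀ i j, i ≠ j → form (a i) (a j) ≠ 0) (T : Finset (Pr K))
    (hT : ∀ v, v ∉ T → v ∉ S ∧ GoodPr a v) {x : Fin 2 → K} (hx0 : x ≠ 0)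
    (hx : ∀ i, form (a i) x ≠ 0) {X : ℝ} (hX : 1 ≤ X) (h : Real.exp (counting S a x) ≤ X) :
    ∃ s : Fin q, nn (sp (tt (tri a s) x)) ≤ nn T * X ^ (3 / (q : ℝ)) := by
  classical
  set I : Set (Pr K) := {v | v ∉ S ∧ 0 < ∑ i, localHeight v (a i) x} with hIdef
  have hI : I.Finite := by
    have h1 : (⋃ i, {v : Pr K | fv v (form (a i) x) ≠ 1}).Finite :=
      Set.finite_iUnion fun i => fv_support_finite (hx i)
    refine (T.finite_toSet.union ((good_finite x).union h1)).subset ?_
    intro v hv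
    by_contra hcon
    rw [Set.mem_union, Set.mem_union, not_or, not_or] at hcon
    obtain ⟨k1, k2, k3⟩ := hcon
    have hg := (hT v k1).2
    have hgx : Good v x := by
      by_contra h'
      exact k2 h'
    have h2 : ∀ i, fv v (form (a i) x) = 1 := by
      intro i
      by_contra h'
      exact k3 (Set.mem_iUnion.2 ⟨i, h'⟩)
    have h3 : ∑ i, localHeight v (a i) x = 0 := by
      refine Finset.sum_eq_zero fun i _ => ?_
      rw [localHeight_eq, h2 i, hg.1 i, m2_of_good hx0 hgx]
      simp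
    have h4 := hv.2
    rw [h3] at h4
    exact lt_irrefl _ h4
  set J := hI.toFinset with hJ
  have hcount : counting S a x = Real.log (nn J) := by
    unfold counting
    rw [log_nn, ← finsum_mem_coe_finset, hJ, Set.Finite.coe_toFinset]
    rfl
  have hnnJ : Real.log (nn J) ≤ Real.log X := by
    rw [hcount] at h
    exact (Real.le_log_iff_exp_le (by linarith)).2 h
  have hlogpos : ∀ v : Pr K, 0 ≤ Real.log (Nv v) := fun v => (log_Nv_pos' v).le
  set si : Fin q → Finset (Pr K) := fun i => (J \ T).filter fun v => 0 < localHeight v (a i) x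
    with hsi
  have hdisj : ∀ i ∈ (Finset.univ : Finset (Fin q)), ∀ j ∈ (Finset.univ : Finset (Fin q)), i ≠ j →
      Disjoint (si i) (si j) := by
    intro i _ j _ hij
    rw [Finset.disjoint_left]
    intro v hi hj
    rw [hsi, Finset.mem_filter, Finset.mem_sdiff] at hi hj
    have hg := (hT v hi.1.2).2
    have k1 := (localHeight_pos_iff v (hx i)).1 hi.2
    have k2 := (localHeight_pos_iff v (hx j)).1 hj.2
    rw [hg.1, one_mul] at k1 k2
    exact two_forms v (hg.1 i) (hg.1 j) (hg.2 i j hij) k1 k2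
  have hsum : ∑ i, Real.log (nn (si i)) ≤ Real.log X := by
    refine le_trans ?_ hnnJ
    have h1 : ∑ i, Real.log (nn (si i)) = ∑ v ∈ Finset.univ.biUnion si, Real.log (Nv v) := by
      rw [Finset.sum_biUnion hdisj]
      exact Finset.sum_congr rfl fun i _ => log_nn (si i)
    rw [h1, log_nn]
    refine Finset.sum_le_sum_of_subset_of_nonneg ?_ fun v _ _ => hlogpos v
    intro v hv
    obtain ⟨i, _, hi⟩ := Finset.mem_biUnion.1 hv
    exact (Finset.mem_sdiff.1 (Finset.mem_filter.1 hi).1).1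
  obtain ⟨s, hs⟩ := three_small hq (fun i => Real.log (nn (si i))) _ hsum
  refine ⟨s, ?_⟩
  have hxs : ∀ i, form (tri a s i) x ≠ 0 := fun i => hx _
  have hsub : sp (tt (tri a s) x) ⊆
      T ∪ (Finset.univ : Finset (Fin 3)).biUnion fun k => si (finRotate q ^ (k : ℕ) • s) := by
    intro v hv
    by_contra hcon
    rw [Finset.mem_union, not_or] at hcon
    obtain ⟨k1, k2⟩ := hcon
    obtain ⟨hvS, hg⟩ := hT v k1
    refine sp_tt (tri_ne hq ha s) hxs (tri_good hq hg s) ?_ hv
    intro k hk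
    apply k2
    refine Finset.mem_biUnion.2 ⟨k, Finset.mem_univ _, ?_⟩
    rw [hsi, Finset.mem_filter, Finset.mem_sdiff]
    refine ⟨⟨?_, k1⟩, hk⟩
    rw [hJ, Set.Finite.mem_toFinset]
    exact ⟨hvS, Finset.sum_pos' (fun i _ => localHeight_nonneg v (hx i)) ⟨_, Finset.mem_univ _, hk⟩⟩
  have hX0 : 0 < X := by linarith
  have hfin : Real.log (nn (sp (tt (tri a s) x))) ≤ Real.log (nn T * X ^ (3 / (q : ℝ))) := by
    rw [Real.log_mul (nn_pos T).ne' (Real.rpow_pos_of_pos hX0 _).ne', Real.log_rpow hX0]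
    calc Real.log (nn (sp (tt (tri a s) x))) = ∑ v ∈ sp (tt (tri a s) x), Real.log (Nv v) :=
          log_nn _
      _ ≤ ∑ v ∈ T ∪ (Finset.univ : Finset (Fin 3)).biUnion fun k => si (finRotate q ^ (k : ℕ) • s),
            Real.log (Nv v) :=
          Finset.sum_le_sum_of_subset_of_nonneg hsub fun v _ _ => hlogpos v
      _ ≤ ∑ v ∈ T, Real.log (Nv v) + ∑ v ∈ (Finset.univ : Finset (Fin 3)).biUnion fun k =>
            si (finRotate q ^ (k : ℕ) • s), Real.log (Nv v) := by
          rw [← Finset.sum_union_inter]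
          exact le_add_of_nonneg_right (Finset.sum_nonneg fun v _ => hlogpos v)
      _ ≤ Real.log (nn T) + ∑ k : Fin 3, Real.log (nn (si (finRotate q ^ (k : ℕ) • s))) := by
          rw [log_nn]
          refine add_le_add le_rfl (le_of_eq ?_)
          rw [Finset.sum_biUnion]
          · exact Finset.sum_congr rfl fun k _ => (log_nn _).symm
          · intro i _ j _ hij
            exact hdisj _ (Finset.mem_univ _) _ (Finset.mem_univ _)
              fun h' => hij (rotate_inj hq s h')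
      _ ≤ _ := add_le_add le_rfl hs
  exact (Real.log_le_log_iff (nn_pos _) (mul_pos (nn_pos T) (Real.rpow_pos_of_pos hX0 _))).1 hfin

end Aux

open Pool.Agent.H691R3 Pool.Agent.TH876.Loc in
theorem final (K : Type) [Field K] [NumberField K]
    (hmain : ∀ ε : ℝ, 0 < ε → ∃ C : ℝ, 0 < C ∧ ∀ X H : ℝ, 1 ≤ X → 1 ≤ H → ∀ F : Finset K,
      (∀ x ∈ F, Pt x ∧ nn (sp x) ≤ X ∧ hgt x ≤ H) → (F.card : ℝ) ≤ C * H * X ^ (2 / 3 + ε))
    (S : Set (HeightOneSpectrum (𝓞 K))) (hS : S.Finite) (q : ℕ) (hq : 3 ≤ q)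
    (a : Fin q → Fin 2 → K) (ha : ∀ i j, i ≠ j → form (a i) (a j) ≠ 0)
    (ε : ℝ) (hε : 0 < ε) :
    ∃ C : ℝ, ∀ X H : ℝ, 1 ≤ X → 1 ≤ H → (Points S a X H).Finite ∧
      ((Points S a X H).ncard : ℝ) ≤ C * H * X ^ (2 / (q : ℝ) + ε) := by
  classical
  obtain ⟨T, hT⟩ := bad_finite hq S hS ha
  obtain ⟨C, hC0, hC⟩ := hmain ε hε
  set cs : Fin q → ℝ := fun s =>
    Height.totalWeight K * Real.log 2 + Height.logHeight (mat (tri a s)) with hcs
  have hcs0 : ∀ s, 0 ≤ cs s := fun s =>
    add_nonneg (mul_nonneg (Nat.cast_nonneg _) (Real.log_nonneg (by norm_num)))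
      (Height.logHeight_nonneg _)
  set c : ℝ := ∑ s, cs s with hc
  have hc0 : 0 ≤ c := Finset.sum_nonneg fun s _ => hcs0 s
  have hcc : ∀ s, cs s ≤ c := fun s => Finset.single_le_sum (fun s _ => hcs0 s) (Finset.mem_univ s)
  have hq0 : (3 : ℝ) ≤ q := by exact_mod_cast hq
  refine ⟨q * (C * (1 + c) * nn T ^ (2 / 3 + ε)), ?_⟩
  intro X H hX hH
  have hX0 : 0 < X := by linarith
  set X' : ℝ := nn T * X ^ (3 / (q : ℝ)) with hX'
  have hXq : 1 ≤ X ^ (3 / (q : ℝ)) := Real.one_le_rpow hX (by positivity)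
  have hX'1 : 1 ≤ X' := by
    rw [hX']
    nlinarith [one_le_nn T]
  have hH'1 : 1 ≤ (1 + c) * H := by nlinarith
  -- choose representatives
  have hex : ∀ p : Projectivization K (Fin 2 → K), ∃ (x : Fin 2 → K) (s : Fin q),
      p ∈ Points S a X H → (∃ hx : x ≠ 0, p = Projectivization.mk K x hx) ∧
        (∀ i, form (a i) x ≠ 0) ∧ nn (sp (tt (tri a s) x)) ≤ X' ∧
        hgt (tt (tri a s) x) ≤ (1 + c) * H := by
    intro p
    by_cases hp : p ∈ Points S a X H
    · obtain ⟨x, hx0, e, hx, h1, h2⟩ := hp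
      obtain ⟨s, hs⟩ := good_index hq S ha T hT hx0 hx hX h1
      refine ⟨x, s, fun _ => ⟨⟨hx0, e⟩, hx, hs, ?_⟩⟩
      have h3 := hgt_tt (tri_ne hq ha s) (x := x) fun i => hx _
      have h4 := hcc s
      rw [hcs] at h4
      simp only at h4
      nlinarith
    · exact ⟨0, ⟨0, by omega⟩, fun h => absurd h hp⟩
  choose f g hfg using hex
  set B : ℝ := C * ((1 + c) * H) * X' ^ (2 / 3 + ε) with hB
  have hB0 : 0 ≤ B := by positivity
  have hbound : ∀ G : Finset (Projectivization K (Fin 2 → K)), (G : Set _) ⊆ Points S a X H →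
      (G.card : ℝ) ≤ q * B := by
    intro G hG
    have h1 : ∀ s : Fin q, ((G.filter fun p => g p = s).card : ℝ) ≤ B := by
      intro s
      have hinj : Set.InjOn (fun p => tt (tri a s) (f p)) (G.filter fun p => g p = s) := by
        intro p hp r hr hpr
        have hp' := Finset.mem_filter.1 (Finset.mem_coe.1 hp)
        have hr' := Finset.mem_filter.1 (Finset.mem_coe.1 hr)
        obtain ⟨⟨hp0, ep⟩, hpx, _⟩ := hfg p (hG hp'.1)
        obtain ⟨⟨hr0, er⟩, hrx, _⟩ := hfg r (hG hr'.1)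
        obtain ⟨k, hk⟩ := tt_inj (tri_ne hq ha s) (x := f p) (y := f r) (fun i => hpx _)
          (fun i => hrx _) hpr
        rw [ep, er, Projectivization.mk_eq_mk_iff']
        exact ⟨k, hk⟩
      rw [← Finset.card_image_of_injOn hinj]
      refine hC X' ((1 + c) * H) hX'1 hH'1 _ ?_
      intro t ht
      obtain ⟨p, hp, rfl⟩ := Finset.mem_image.1 ht
      have hp' := Finset.mem_filter.1 hp
      obtain ⟨_, hpx, h2, h3⟩ := hfg p (hG hp'.1)
      rw [hp'.2] at h2 h3
      exact ⟨Pt_tt (tri_ne hq ha s) fun i => hpx _, h2, h3⟩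
    have h2 : G.card = ∑ s : Fin q, (G.filter fun p => g p = s).card :=
      Finset.card_eq_sum_card_fiberwise fun p _ => Finset.mem_univ (g p)
    rw [h2]
    push_cast
    calc ∑ s : Fin q, ((G.filter fun p => g p = s).card : ℝ) ≤ ∑ _s : Fin q, B :=
          Finset.sum_le_sum fun s _ => h1 s
      _ = q * B := by rw [Finset.sum_const, Finset.card_univ, Fintype.card_fin, nsmul_eq_mul]
  have hfinal : q * B ≤ q * (C * (1 + c) * nn T ^ (2 / 3 + ε)) * H * X ^ (2 / (q : ℝ) + ε) := by
    have h1 : X' ^ (2 / 3 + ε) ≤ nn T ^ (2 / 3 + ε) * X ^ (2 / (q : ℝ) + ε) := by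
      rw [hX', Real.mul_rpow (nn_pos T).le (Real.rpow_nonneg hX0.le _), ← Real.rpow_mul hX0.le]
      refine mul_le_mul_of_nonneg_left ?_ (Real.rpow_nonneg (nn_pos T).le _)
      refine Real.rpow_le_rpow_of_exponent_le hX ?_
      have h3 : 3 / (q : ℝ) * (2 / 3 + ε) = 2 / q + 3 / q * ε := by ring
      rw [h3]
      have h4 : 3 / (q : ℝ) ≤ 1 := (div_le_one (by linarith)).2 hq0
      nlinarith
    have h2 : B ≤ C * ((1 + c) * H) * (nn T ^ (2 / 3 + ε) * X ^ (2 / (q : ℝ) + ε)) :=
      mul_le_mul_of_nonneg_left h1 (by positivity)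
    calc q * B ≤ q * (C * ((1 + c) * H) * (nn T ^ (2 / 3 + ε) * X ^ (2 / (q : ℝ) + ε))) :=
          mul_le_mul_of_nonneg_left h2 (by linarith)
      _ = _ := by ring
  have hfin : (Points S a X H).Finite := by
    by_contra hinf
    obtain ⟨G, hGV, hGc⟩ := Set.Infinite.exists_subset_card_eq hinf (⌊q * B⌋₊ + 1)
    have h1 := hbound G hGV
    have h2 := Nat.lt_floor_add_one (q * B)
    rw [hGc] at h1
    push_cast at h1
    linarith
  refine ⟨hfin, ?_⟩
  rw [Set.ncard_eq_toFinset_card _ hfin]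
  exact (hbound hfin.toFinset (by rw [Set.Finite.coe_toFinset])).trans hfinal

end Pool.Agent.TH876.KR
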