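import Mathlib
import Pool.Agent.H59.L.S8.TH876.KR.Def

set_option autoImplicit false

/-!
# KR-1: the gap inequality (job 1470)
-/

namespace Pool.Agent.TH876.KR

open NumberField IsDedekindDomain Finset Pool.Agent.H691R3 Pool.Agent.TH876.Loc

variable {K : Type} [Field K] [NumberField K]

theorem gap_two (v : Pl K) {x : K} (hx : Pt x) {i j : Fin 3} (hij : i ≠ j) :
    min (df v i x) (df v j x) ≤ mt v * Real.log (cv v) := by
  rcases v with w | v
  · exact df_arch hx hij w
  · have e : mt (Sum.inr v : Pl K) * Real.log (cv (Sum.inr v : Pl K)) = 0 := by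
      show 1 * Real.log 1 = 0
      rw [Real.log_one, mul_zero]
    rw [e]
    by_cases h : v ∈ side i x
    · have h2 : v ∉ side j x := fun h' => hij (side_uniq h h')
      rw [df_eq_zero hx h2]
      exact min_le_right _ _
    · rw [df_eq_zero hx h]
      exact min_le_left _ _

theorem gap_wedge (x y : K) (i : Fin 3) :
    x - y = L i x * L (i + 1) y + -(L (i + 1) x * L i y) := by
  fin_cases i
  · show x - y = x * 1 + -(1 * y)
    ring
  · show x - y = 1 * (-y - 1) + -((-x - 1) * 1)
    ring
  · show x - y = (-x - 1) * y + -(x * (-y - 1))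
    ring

theorem gap_loc (v : Pl K) {x y : K} (hx : Pt x) (hy : Pt y) (hne : x ≠ y) (i : Fin 3) :
    min (df v i x) (df v i y) ≤ mt v * Real.log (cv v) + mx v x + mx v y - lg v (x - y) := by
  have hmt := mt_pos v
  have hcv0 : 0 < cv v := lt_of_lt_of_le one_pos (one_le_cv v)
  have hMx : 0 < M v x := lt_of_lt_of_le one_pos (one_le_M v x)
  have hMy : 0 < M v y := lt_of_lt_of_le one_pos (one_le_M v y)
  have hxi : 0 < av v (L i x) := (av v).pos (L_ne hx i)
  have hyi : 0 < av v (L i y) := (av v).pos (L_ne hy i)
  have hd : 0 < av v (x - y) := (av v).pos (sub_ne_zero.2 hne)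
  have h1 : av v (x - y) ≤ cv v * max (av v (L i x) * M v y) (M v x * av v (L i y)) := by
    have h0 : av v (x - y) ≤ cv v * max (av v (L i x * L (i + 1) y)) (av v (-(L (i + 1) x * L i y))) := by
      have := av_add v (L i x * L (i + 1) y) (-(L (i + 1) x * L i y))
      rwa [← gap_wedge x y i] at this
    refine h0.trans (mul_le_mul_of_nonneg_left (max_le_max ?_ ?_) hcv0.le)
    · rw [map_mul]
      exact mul_le_mul_of_nonneg_left (av_L_le v y _) hxi.le
    · rw [(av v).map_neg, map_mul]
      exact mul_le_mul_of_nonneg_right (av_L_le v x _) hyi.le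
  rcases max_choice (av v (L i x) * M v y) (M v x * av v (L i y)) with h | h
  · rw [h] at h1
    have h2 := Real.log_le_log hd h1
    rw [Real.log_mul hcv0.ne' (mul_pos hxi hMy).ne', Real.log_mul hxi.ne' hMy.ne'] at h2
    have h3 := mul_le_mul_of_nonneg_left h2 hmt.le
    refine (min_le_left _ _).trans ?_
    unfold df mx lg
    linarith
  · rw [h] at h1
    have h2 := Real.log_le_log hd h1
    rw [Real.log_mul hcv0.ne' (mul_pos hMx hyi).ne', Real.log_mul hMx.ne' hyi.ne'] at h2
    have h3 := mul_le_mul_of_nonneg_left h2 hmt.le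
    refine (min_le_right _ _).trans ?_
    unfold df mx lg
    linarith

theorem gap_zero (v : Pl K) (x : K) : ∃ i, df v i x = 0 := by
  obtain ⟨i, hi⟩ := M_attained v x
  refine ⟨i, ?_⟩
  unfold df mx lg
  rw [hi, sub_self]

/-- all but one of the minima are small -/
theorem gap_sum (v : Pl K) {x y : K} (hx : Pt x) (hy : Pt y) (hne : x ≠ y) :
    ∑ i, min (df v i x) (df v i y) ≤
      2 * (mt v * Real.log (cv v)) + mx v x + mx v y - lg v (x - y) := by
  have key := fun i => gap_loc v hx hy hne i
  have two := fun {i j : Fin 3} (hij : i ≠ j) => gap_two v hx hij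
  have hle : ∀ i, min (df v i x) (df v i y) ≤ df v i x := fun i => min_le_left _ _
  have comb : ∀ k a b : Fin 3, a ≠ b → df v k x = 0 →
      min (df v k x) (df v k y) + min (df v a x) (df v a y) + min (df v b x) (df v b y) ≤
      2 * (mt v * Real.log (cv v)) + mx v x + mx v y - lg v (x - y) := by
    intro k a b hab hk
    have h0 := hle k
    rw [hk] at h0
    have h1 := two hab
    have ka := key a
    have kb := key b
    have ha := hle a
    have hb := hle b
    rw [hk]
    rcases le_total (df v a x) (df v b x) with h | h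
    · rw [min_eq_left h] at h1
      have := min_le_left (0 : ℝ) (df v k y)
      linarith
    · rw [min_eq_right h] at h1
      have := min_le_left (0 : ℝ) (df v k y)
      linarith
  rw [Fin.sum_univ_three]
  obtain ⟨k, hk⟩ := gap_zero v x
  have e : k = 0 ∨ k = 1 ∨ k = 2 := by
    fin_cases k <;> simp
  rcases e with rfl | rfl | rfl
  · have := comb 0 1 2 (by decide) hk
    linarith
  · have := comb 1 0 2 (by decide) hk
    linarith
  · have := comb 2 0 1 (by decide) hk
    linarith

theorem gapK {x y : K} (hx : Pt x) (hy : Pt y) (hne : x ≠ y) (T : Finset (Pl K)) :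
    ∑ v ∈ T, ∑ i, min (df v i x) (df v i y) ≤ hgt x + hgt y + 2 * (dK K * Real.log 2) := by
  classical
  have hD : x - y ≠ 0 := sub_ne_zero.2 hne
  set V : Finset (Pr K) := (sp x ∪ sp y) ∪ ((fv_support_finite hD).toFinset ∪
    T.preimage Sum.inr Sum.inr_injective.injOn) with hV
  have hVx : sp x ⊆ V := Finset.subset_union_left.trans Finset.subset_union_left
  have hVy : sp y ⊆ V := Finset.subset_union_right.trans Finset.subset_union_left
  have hVD : ∀ v, v ∉ V → fv v (x - y) = 1 := by
    intro v hv
    by_contra h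
    apply hv
    rw [hV]
    refine Finset.mem_union_right _ (Finset.mem_union_left _ ?_)
    rw [Set.Finite.mem_toFinset]
    exact h
  have hT : T ⊆ Spl V := by
    intro v hv
    rcases v with w | v
    · exact inl_mem_Spl V w
    · rw [inr_mem_Spl, hV]
      refine Finset.mem_union_right _ (Finset.mem_union_right _ ?_)
      rw [Finset.mem_preimage]
      exact hv
  have h1 : ∑ v ∈ T, ∑ i, min (df v i x) (df v i y) ≤ ∑ v ∈ Spl V, ∑ i, min (df v i x) (df v i y) :=
    Finset.sum_le_sum_of_subset_of_nonneg hT fun v _ _ =>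
      Finset.sum_nonneg fun i _ => le_min (df_nonneg v i hx) (df_nonneg v i hy)
  have h2 := Finset.sum_le_sum (s := Spl V) fun v _ => gap_sum v hx hy hne
  rw [Finset.sum_sub_distrib, Finset.sum_add_distrib, Finset.sum_add_distrib, ← Finset.mul_sum,
    sum_cv, hgt_eq hx hVx, hgt_eq hy hVy, sum_lg hD hVD] at h2
  linarith

end Pool.Agent.TH876.KR
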