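import Mathlib
import Pool.Agent.H59.L.S8.TH876.KR.Def

set_option autoImplicit false

/-!
# Generators of powers of primes and Dirichlet units (job 1475, written by helper576)
-/

namespace Pool.Agent.TH876.KR

open NumberField IsDedekindDomain Finset Pool.Agent.H691R3 Pool.Agent.TH876.Loc

variable {K : Type} [Field K] [NumberField K]

theorem gens_fv_exp (v : Pr K) {x : K} (n : ℕ)
    (h : v.valuation K x = WithZero.exp (-(n : ℤ))) : fv v x = (Nv v)⁻¹ ^ n := by
  have h1 : fv v x = _ := NumberField.FinitePlace.norm_embedding' (v := v) (x := x)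
  have hx' : v.valuation K x ≠ 0 := by rw [h]; exact WithZero.exp_ne_zero
  rw [WithZeroMulInt.toNNReal_neg_apply _ hx'] at h1
  have h2 : Multiplicative.toAdd (WithZero.unzero hx') = -(n : ℤ) := by
    have h3 : (↑(WithZero.unzero hx') : WithZero (Multiplicative ℤ)) = WithZero.exp (-(n : ℤ)) := by
      rw [WithZero.coe_unzero, h]
    have h4 : WithZero.unzero hx' = Multiplicative.ofAdd (-(n : ℤ)) := WithZero.coe_injective h3
    rw [h4]
    rfl
  rw [h2] at h1
  rw [h1]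
  push_cast
  rw [zpow_neg, zpow_natCast, inv_pow]
  rfl

theorem gens_fv_one (v : Pr K) {x : 𝓞 K} (h : x ∉ v.asIdeal) : fv v (x : K) = 1 :=
  (NumberField.FinitePlace.norm_eq_one_iff_notMem K v x).2 h

/-- the powers of primes are principal -/
theorem gens_pi (v : Pr K) : ∃ π : 𝓞 K,
    Ideal.span {π} = v.asIdeal ^ Fintype.card (ClassGroup (𝓞 K)) := by
  have h0 : v.asIdeal ∈ nonZeroDivisors (Ideal (𝓞 K)) := mem_nonZeroDivisors_of_ne_zero v.ne_bot
  have h1 : ClassGroup.mk0 (⟨v.asIdeal, h0⟩ : nonZeroDivisors (Ideal (𝓞 K))) ^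
      Fintype.card (ClassGroup (𝓞 K)) = 1 := pow_card_eq_one
  rw [← map_pow] at h1
  have h2 : (⟨v.asIdeal, h0⟩ : nonZeroDivisors (Ideal (𝓞 K))) ^ Fintype.card (ClassGroup (𝓞 K)) =
      ⟨v.asIdeal ^ Fintype.card (ClassGroup (𝓞 K)), pow_mem h0 _⟩ := rfl
  rw [h2, ClassGroup.mk0_eq_one_iff] at h1
  obtain ⟨π, hπ⟩ := h1
  exact ⟨π, hπ.symm⟩

theorem gens_pi_self (v : Pr K) {π : 𝓞 K} {n : ℕ} (h : Ideal.span {π} = v.asIdeal ^ n) :
    fv v (π : K) = (Nv v)⁻¹ ^ n := by
  apply gens_fv_exp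
  have e : v.valuation K ((π : 𝓞 K) : K) = v.intValuation π := v.valuation_of_algebraMap π
  rw [e]
  have h1 : v.intValuation π ≤ WithZero.exp (-(n : ℤ)) := by
    rw [HeightOneSpectrum.intValuation_le_pow_iff_dvd, h]
  refine le_antisymm h1 ?_
  by_contra h2
  push Not at h2
  have h3 : v.intValuation π ≤ WithZero.exp (-((n + 1 : ℕ) : ℤ)) := by
    by_cases h0 : v.intValuation π = 0
    · rw [h0]
      exact zero_le
    · rw [← WithZero.exp_log h0] at h2 ⊢
      rw [WithZero.exp_lt_exp] at h2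
      rw [WithZero.exp_le_exp]
      push_cast
      omega
  rw [HeightOneSpectrum.intValuation_le_pow_iff_dvd, h] at h3
  have h4 : v.asIdeal ^ n ≠ 0 := pow_ne_zero _ v.ne_bot
  have h5 : v.asIdeal ^ n * v.asIdeal ∣ v.asIdeal ^ n * 1 := by
    rw [mul_one, ← pow_succ]
    exact h3
  have h6 : v.asIdeal ∣ 1 := (mul_dvd_mul_iff_left h4).1 h5
  exact v.isPrime.ne_top (by rw [← Ideal.one_eq_top]; exact isUnit_iff_eq_one.1 (isUnit_of_dvd_one h6))

theorem gens_pi_ne {u v : Pr K} (huv : u ≠ v) {π : 𝓞 K} {n : ℕ}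
    (h : Ideal.span {π} = v.asIdeal ^ n) : fv u (π : K) = 1 := by
  apply gens_fv_one
  intro hmem
  apply huv
  have h1 : v.asIdeal ^ n ≤ u.asIdeal := by
    rw [← h, Ideal.span_singleton_le_iff_mem]
    exact hmem
  have h2 : v.asIdeal ≤ u.asIdeal := u.isPrime.le_of_pow_le h1
  ext1
  exact ((v.isMaximal.eq_of_le u.isPrime.ne_top h2)).symm

/-- elements all of whose finite absolute values are one are units -/
theorem gens_unit {z : K} (hz : z ≠ 0) (h : ∀ v : Pr K, fv v z = 1) : ∃ u : (𝓞 K)ˣ, ((u : 𝓞 K) : K) = z := by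
  have key : ∀ z : K, (∀ v : Pr K, fv v z = 1) → ∃ a : 𝓞 K, (a : K) = z := by
    intro z h
    have h1 := HeightOneSpectrum.mem_integers_of_valuation_le_one (R := 𝓞 K) K z (fun v => by
      have h2 : fv v z = _ := NumberField.FinitePlace.norm_embedding' (v := v) (x := z)
      by_cases h0 : v.valuation K z = 0
      · rw [h0]
        exact zero_le
      rw [h v, WithZeroMulInt.toNNReal_neg_apply _ h0] at h2
      push_cast at h2
      have h3 : (1 : ℝ) < (Ideal.absNorm v.asIdeal : ℝ) := by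
        have := two_le_Nv v
        unfold Nv at this
        linarith
      have h4 : Multiplicative.toAdd (WithZero.unzero h0) = 0 := by
        by_contra h5
        rcases lt_or_gt_of_ne h5 with h6 | h6
        · have := zpow_lt_one_of_neg₀ h3 h6
          linarith
        · have := one_lt_zpow₀ h3 h6
          linarith
      have h5 : (↑(WithZero.unzero h0) : WithZero (Multiplicative ℤ)) = v.valuation K z :=
        WithZero.coe_unzero h0
      rw [← h5]
      have h6 : WithZero.unzero h0 = 1 := h4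
      rw [h6]
      exact le_rfl)
    obtain ⟨a, ha⟩ := h1
    exact ⟨a, ha⟩
  obtain ⟨a, ha⟩ := key z h
  obtain ⟨b, hb⟩ := key z⁻¹ (fun v => by rw [map_inv₀, h v, inv_one])
  have hab : a * b = 1 := by
    apply FaithfulSMul.algebraMap_injective (𝓞 K) K
    rw [map_mul, map_one]
    have ha' : algebraMap (𝓞 K) K a = z := ha
    have hb' : algebraMap (𝓞 K) K b = z⁻¹ := hb
    rw [ha', hb', mul_inv_cancel₀ hz]
  exact ⟨⟨a, b, hab, by rw [mul_comm]; exact hab⟩, ha⟩

/-- Dirichlet's theorem, without the torsion -/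
theorem gens_dirichlet (u : (𝓞 K)ˣ) : ∃ b : Fin (Units.rank K) → ℤ,
    ((u : 𝓞 K) : K) ^ (Units.torsionOrder K) =
      ∏ j, (((Units.fundSystem K j : (𝓞 K)ˣ) : 𝓞 K) : K) ^ (b j) := by
  obtain ⟨⟨ζ, e⟩, h, -⟩ := Units.exist_unique_eq_mul_prod K u
  simp only at h
  refine ⟨fun j => e j * Units.torsionOrder K, ?_⟩
  have hζ : (ζ : (𝓞 K)ˣ) ^ (Units.torsionOrder K) = 1 := by
    have h1 : (ζ : (𝓞 K)ˣ) ∈ rootsOfUnity (Units.torsionOrder K) (𝓞 K) := by
      rw [Units.rootsOfUnity_eq_torsion]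
      exact ζ.2
    rwa [mem_rootsOfUnity] at h1
  have h2 : u ^ (Units.torsionOrder K) =
      ∏ j, (Units.fundSystem K j) ^ (e j * Units.torsionOrder K) := by
    rw [h, mul_pow, hζ, one_mul, ← Finset.prod_pow]
    refine Finset.prod_congr rfl fun j _ => ?_
    rw [zpow_mul, zpow_natCast]
  have h3 := congrArg (fun x : (𝓞 K)ˣ => (Units.map (algebraMap (𝓞 K) K : 𝓞 K →* K) x : Kˣ)) h2
  simp only [map_pow, map_prod, map_zpow] at h3
  have h4 := congrArg (fun x : Kˣ => (x : K)) h3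
  simp only [Units.val_pow_eq_pow_val, Units.coe_prod, Units.val_zpow_eq_zpow_val] at h4
  exact h4

variable (K) in
theorem gens : ∃ (h : ℕ) (r : ℕ) (ε : Fin r → (𝓞 K)ˣ) (g : Pr K → 𝓞 K), 1 ≤ h ∧
    (∀ v : Pr K, fv v (g v : K) = (Nv v)⁻¹ ^ h) ∧ (∀ u v : Pr K, u ≠ v → fv u (g v : K) = 1) ∧
    ∀ (S : Finset (Pr K)) (p : Pr K) (e : ℕ) (a : Pr K → ℤ) (y : K), y ≠ 0 → p ∉ S →
      (∀ v, v ∉ S → v ≠ p → fv v y = 1) → fv p y = (Nv p)⁻¹ ^ e →
      (∀ v ∈ S, fv v y = (Nv v)⁻¹ ^ (a v)) →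
      ∃ b : Fin r → ℤ, y ^ h = (∏ j, (((ε j : 𝓞 K) : K)) ^ (b j)) * (g p : K) ^ e *
        ∏ v ∈ S, (g v : K) ^ (a v) := by
  classical
  choose π hπ using (gens_pi (K := K))
  set cl := Fintype.card (ClassGroup (𝓞 K)) with hcl
  set t := Units.torsionOrder K with ht
  have hcl0 : 1 ≤ cl := Fintype.card_pos
  have ht0 : 1 ≤ t := Units.torsionOrder_pos K
  have hs : ∀ v, fv v (π v : K) = (Nv v)⁻¹ ^ cl := fun v => gens_pi_self v (hπ v)
  have hn : ∀ u v : Pr K, u ≠ v → fv u (π v : K) = 1 := fun u v h => gens_pi_ne h (hπ v)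
  have hπ0 : ∀ v, (π v : K) ≠ 0 := by
    intro v h0
    have h1 := hs v
    rw [h0, map_zero] at h1
    have h2 : 0 < (Nv v)⁻¹ ^ cl := pow_pos (inv_pos.2 (Nv_pos v)) _
    rw [← h1] at h2
    exact lt_irrefl _ h2
  have hpow : ∀ v, ((π v ^ t : 𝓞 K) : K) = (π v : K) ^ t := fun v => map_pow (algebraMap (𝓞 K) K) _ _
  refine ⟨cl * t, Units.rank K, Units.fundSystem K, fun v => π v ^ t, Nat.mul_pos hcl0 ht0, ?_, ?_,
    ?_⟩
  · intro v
    rw [hpow, map_pow, hs, pow_mul]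
  · intro u v huv
    rw [hpow, map_pow, hn u v huv, one_pow]
  · intro S p e a y hy hp h1 h2 h3
    have hD : (π p : K) ^ e * ∏ v ∈ S, (π v : K) ^ (a v) ≠ 0 :=
      mul_ne_zero (pow_ne_zero _ (hπ0 p)) (Finset.prod_ne_zero_iff.2 fun v _ =>
        zpow_ne_zero _ (hπ0 v))
    have hz0 : y ^ cl / ((π p : K) ^ e * ∏ v ∈ S, (π v : K) ^ (a v)) ≠ 0 :=
      div_ne_zero (pow_ne_zero _ hy) hD
    obtain ⟨u, hu⟩ := gens_unit hz0 (fun v => by
      have hy0 : fv v y ≠ 0 := ((fv v).pos hy).ne'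
      rw [map_div₀, map_pow, map_mul, map_pow, map_prod, div_eq_one_iff_eq
        (mul_ne_zero (pow_ne_zero _ ((fv v).ne_zero (hπ0 p))) (Finset.prod_ne_zero_iff.2 fun w _ =>
          (fv v).ne_zero (zpow_ne_zero _ (hπ0 w))))]
      have h4 : ∀ w, fv v ((π w : K) ^ (a w)) = fv v (π w : K) ^ (a w) := fun w => map_zpow₀ _ _ _
      simp only [h4]
      by_cases hvp : v = p
      · subst hvp
        rw [hs, h2, Finset.prod_eq_one, mul_one, ← pow_mul, ← pow_mul, mul_comm]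
        intro w hw
        have : v ≠ w := by rintro rfl; exact hp hw
        rw [hn v w this, one_zpow]
      · rw [hn v p hvp, one_pow, one_mul]
        by_cases hvS : v ∈ S
        · rw [Finset.prod_eq_single_of_mem v hvS, hs, h3 v hvS]
          · rw [← zpow_natCast, ← zpow_natCast, ← zpow_mul, ← zpow_mul, mul_comm]
          · intro w _ hwv
            rw [hn v w (Ne.symm hwv), one_zpow]
        · rw [h1 v hvS hvp, one_pow, Finset.prod_eq_one]
          intro w hw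
          have : v ≠ w := by rintro rfl; exact hvS hw
          rw [hn v w this, one_zpow])
    obtain ⟨b, hb⟩ := gens_dirichlet u
    refine ⟨b, ?_⟩
    rw [← hb, hu, ← ht, pow_mul, div_pow, mul_pow, ← Finset.prod_pow]
    have h5 : ∀ v, ((π v ^ t : 𝓞 K) : K) ^ (a v) = ((π v : K) ^ (a v)) ^ t := by
      intro v
      rw [hpow, ← zpow_natCast, ← zpow_natCast, ← zpow_mul, ← zpow_mul, mul_comm]
    simp only [h5]
    rw [hpow, ← pow_mul (π p : K) t e, ← pow_mul (π p : K) e t, mul_comm t e]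
    have h6 : ∏ v ∈ S, ((π v : K) ^ (a v)) ^ t ≠ 0 :=
      Finset.prod_ne_zero_iff.2 fun v _ => pow_ne_zero _ (zpow_ne_zero _ (hπ0 v))
    have h7 : (π p : K) ^ (e * t) ≠ 0 := pow_ne_zero _ (hπ0 p)
    field_simp

end Pool.Agent.TH876.KR
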