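import Mathlib
import Pool.Agent.H59.L.S8.TH876.KR.Def

set_option autoImplicit false

/-!
# Sectors in the complex plane (job KR-6)
-/

namespace Pool.Agent.TH876.KR

open NumberField IsDedekindDomain Finset Pool.Agent.H691R3 Pool.Agent.TH876.Loc

variable {K : Type} [Field K] [NumberField K]

theorem sector {z : ℂ} {e : ℕ} (he : 1 ≤ e) (hz : |z.arg| * (4 * e) ≤ Real.pi) :
    ‖z - 1‖ ≤ ‖z ^ e - 1‖ := by
  have h1 : z ^ e - 1 = (∑ j ∈ range e, z ^ j) * (z - 1) := (geom_sum_mul z e).symm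
  have he' : (1:ℝ) ≤ e := by exact_mod_cast he
  have hre : ∀ j ∈ range e, 0 ≤ (z ^ j).re := by
    intro j hj
    have hje : (j:ℝ) ≤ e := by exact_mod_cast (Finset.mem_range.1 hj).le
    have h2 : z ^ j = ((‖z‖ ^ j : ℝ) : ℂ) * Complex.exp (((j * z.arg : ℝ) : ℂ) * Complex.I) := by
      conv_lhs => rw [← Complex.norm_mul_exp_arg_mul_I z]
      rw [mul_pow, ← Complex.exp_nat_mul]
      push_cast
      ring_nf
    rw [h2, Complex.re_ofReal_mul, Complex.exp_ofReal_mul_I_re]
    apply mul_nonneg (pow_nonneg (norm_nonneg _) _)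
    have h3 : |(j:ℝ) * z.arg| ≤ Real.pi / 2 := by
      rw [abs_mul, abs_of_nonneg (Nat.cast_nonneg j)]
      have h4 : (j:ℝ) * |z.arg| ≤ e * |z.arg| :=
        mul_le_mul_of_nonneg_right hje (abs_nonneg _)
      have h5 := Real.pi_pos
      linarith
    rw [abs_le] at h3
    exact Real.cos_nonneg_of_neg_pi_div_two_le_of_le (by linarith [h3.1]) h3.2
  have h6 : 1 ≤ ‖∑ j ∈ range e, z ^ j‖ := by
    have h7 : (1:ℝ) ≤ (∑ j ∈ range e, z ^ j).re := by
      rw [Complex.re_sum]
      have h8 : (z ^ 0).re ≤ ∑ j ∈ range e, (z ^ j).re :=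
        Finset.single_le_sum hre (Finset.mem_range.2 he)
      simpa using h8
    exact h7.trans (Complex.re_le_norm _)
  rw [h1, norm_mul]
  calc ‖z - 1‖ = 1 * ‖z - 1‖ := (one_mul _).symm
    _ ≤ _ := mul_le_mul_of_nonneg_right h6 (norm_nonneg _)

theorem sector_index (e : ℕ) (he : 1 ≤ e) : ∃ f : ℂ → ℕ, (∀ z, f z < 8 * e + 1) ∧
    ∀ a b : ℂ, a ≠ 0 → b ≠ 0 → f a = f b → |(a / b).arg| * (4 * e) ≤ Real.pi := by
  have he' : (1:ℝ) ≤ e := by exact_mod_cast he
  have hpi := Real.pi_pos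
  refine ⟨fun z => ⌊(z.arg + Real.pi) / (2 * Real.pi) * (8 * e)⌋₊, ?_, ?_⟩
  · intro z
    rw [Nat.floor_lt' (by omega)]
    have h1 : (z.arg + Real.pi) / (2 * Real.pi) ≤ 1 := by
      rw [div_le_one (by positivity)]
      linarith [Complex.arg_le_pi z]
    push_cast
    have h2 : (z.arg + Real.pi) / (2 * Real.pi) * (8 * e) ≤ 1 * (8 * e) :=
      mul_le_mul_of_nonneg_right h1 (by positivity)
    linarith
  · intro a b ha hb hab
    simp only at hab
    have hnn : ∀ z : ℂ, 0 ≤ (z.arg + Real.pi) / (2 * Real.pi) * (8 * e) := by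
      intro z
      have := Complex.neg_pi_lt_arg z
      apply mul_nonneg
      · apply div_nonneg <;> linarith
      · positivity
    have h1 : |(a.arg + Real.pi) / (2 * Real.pi) * (8 * e)
        - (b.arg + Real.pi) / (2 * Real.pi) * (8 * e)| < 1 := by
      have a1 := Nat.floor_le (hnn a)
      have a2 := Nat.lt_floor_add_one ((a.arg + Real.pi) / (2 * Real.pi) * (8 * e))
      have b1 := Nat.floor_le (hnn b)
      have b2 := Nat.lt_floor_add_one ((b.arg + Real.pi) / (2 * Real.pi) * (8 * e))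
      rw [hab] at a1 a2
      rw [abs_lt]
      constructor <;> linarith
    have h2 : (a.arg + Real.pi) / (2 * Real.pi) * (8 * e)
        - (b.arg + Real.pi) / (2 * Real.pi) * (8 * e) = (a.arg - b.arg) * (4 * e) / Real.pi := by
      field_simp
      ring
    rw [h2, abs_div, abs_of_pos hpi, div_lt_one hpi, abs_mul,
      abs_of_nonneg (by positivity : (0:ℝ) ≤ 4 * e)] at h1
    have h3 : |a.arg - b.arg| < Real.pi := by
      have : |a.arg - b.arg| * 1 ≤ |a.arg - b.arg| * (4 * e) :=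
        mul_le_mul_of_nonneg_left (by linarith) (abs_nonneg _)
      linarith
    have h4 : (a / b).arg = a.arg - b.arg := by
      have h5 := Complex.arg_div_coe_angle ha hb
      rw [← Complex.arg_coe_angle_toReal_eq_arg, h5, ← Real.Angle.coe_sub,
        Real.Angle.toReal_coe_eq_self_iff]
      rw [abs_lt] at h3
      exact ⟨h3.1, h3.2.le⟩
    rw [h4]
    exact h1.le

end Pool.Agent.TH876.KR
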