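import Pool.Agent.H59.L.S8.TH876.KR.Pig
import Pool.Agent.H59.L.S8.TH876.KR.NearOne
import Pool.Agent.H59.L.S8.TH876.KR.Lte

set_option autoImplicit false

/-!
# The conclusion of the pigeonhole argument
-/

namespace Pool.Agent.TH876.KR

open NumberField IsDedekindDomain Finset Pool.Agent.H691R3 Pool.Agent.TH876.Loc

variable {K : Type} [Field K] [NumberField K]

theorem sum_diff_le {n : ℕ} (a : Fin n → ℝ) {τ : ℝ} (hτ : 0 ≤ τ) (ha : ∀ i j, |a i - a j| ≤ τ)
    (I J : Finset (Fin n)) (hIJ : I.card = J.card) :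
    ∑ i ∈ I, a i - ∑ j ∈ J, a j ≤ 2 * (n * τ) := by
  have hn : ∀ I : Finset (Fin n), (I.card : ℝ) ≤ n := by
    intro I
    have := Finset.card_le_univ I
    rw [Fintype.card_fin] at this
    exact_mod_cast this
  rcases Nat.eq_zero_or_pos n with h0 | h0
  · subst h0
    have e1 : I = ∅ := Finset.eq_empty_of_isEmpty I
    have e2 : J = ∅ := Finset.eq_empty_of_isEmpty J
    rw [e1, e2]
    simp
  · set i0 : Fin n := ⟨0, h0⟩
    have h1 : ∑ i ∈ I, a i ≤ ∑ _i ∈ I, (a i0 + τ) := Finset.sum_le_sum fun i _ => by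
      have := (le_abs_self _).trans (ha i i0)
      linarith
    have h2 : ∑ _j ∈ J, (a i0 - τ) ≤ ∑ j ∈ J, a j := Finset.sum_le_sum fun j _ => by
      have := (le_abs_self _).trans (ha i0 j)
      linarith
    rw [Finset.sum_const, nsmul_eq_mul] at h1 h2
    rw [hIJ] at h1
    have h3 := mul_le_mul_of_nonneg_right (hn J) hτ
    nlinarith

theorem fv_prod_p {n e : ℕ} {S : Finset (Pr K)} {y : Fin n → K} {p : Fin n → Pr K}
    (hinj : Function.Injective p) (hpS : ∀ i, p i ∉ S)
    (hy1 : ∀ i v, v ∉ S → v ≠ p i → fv v (y i) = 1)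
    (hyp : ∀ i, fv (p i) (y i) = (Nv (p i))⁻¹ ^ e) (I : Finset (Fin n)) (i0 : Fin n)
    [Decidable (i0 ∈ I)] :
    fv (p i0) (∏ i ∈ I, y i) = if i0 ∈ I then (Nv (p i0))⁻¹ ^ e else 1 := by
  classical
  rw [map_prod]
  split_ifs with h
  · rw [← Finset.mul_prod_erase I _ h, hyp i0, Finset.prod_eq_one, mul_one]
    intro i hi
    exact hy1 i _ (hpS i0) fun hp => (Finset.ne_of_mem_erase hi) (hinj hp).symm
  · refine Finset.prod_eq_one fun i hi => ?_
    exact hy1 i _ (hpS i0) fun hp => h (by rw [hinj hp]; exact hi)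

theorem pow_lt_one_Nv (v : Pr K) {m : ℕ} (hm : 1 ≤ m) : (Nv v)⁻¹ ^ m < 1 := by
  have h2 := two_le_Nv v
  refine pow_lt_one₀ (inv_nonneg.2 (by linarith)) ?_ (by omega)
  rw [inv_lt_one_iff₀]
  right
  linarith

variable (K) in
theorem pigK : ∃ C : ℕ, 1 ≤ C ∧ ∀ (S : Finset (Pr K)) (n e E : ℕ) (Y τ : ℝ)
    (y : Fin n → K) (p : Fin n → Pr K) (T : Finset (Pr K)) (W : Finset (InfinitePlace K))
    (δ : Pr K → ℝ) (δ' : InfinitePlace K → ℝ),
    1 ≤ n → 1 ≤ e → 1 ≤ Y → 0 ≤ τ → (∀ i, y i ≠ 0) → Function.Injective p → (∀ i, p i ∉ S) →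
    (∀ i, Nv (p i) ≤ Y) →
    (∀ i v, v ∉ S → v ≠ p i → fv v (y i) = 1) → (∀ i, fv (p i) (y i) = (Nv (p i))⁻¹ ^ e) →
    (∀ i, ∀ v ∈ S, ∃ a : ℤ, |a| ≤ E ∧ fv v (y i) = (Nv v)⁻¹ ^ a) →
    (∀ i j, ∀ w : InfinitePlace K, |Real.log (w (y i)) - Real.log (w (y j))| ≤ τ) →
    T ⊆ S → (∀ v ∈ T, 0 < δ v ∧ δ v < 1) → (∀ i, ∀ v ∈ T, fv v (y i - 1) ≤ δ v) →
    (∀ w ∈ W, 0 < δ' w ∧ C * n * δ' w ≤ 1) → (∀ i, ∀ w ∈ W, w (y i - 1) ≤ δ' w) →
    ((n : ℝ) + 1) * (2 * n * E + 1) ^ S.card * (9 * e) ^ C * nn S ^ C < 2 ^ n →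
    ∑ v ∈ T, -Real.log (δ v) + ∑ w ∈ W, (w.mult : ℝ) * -Real.log (δ' w) ≤
      C * (Real.log e + n * Real.log Y + n * τ / e + n) := by
  classical
  obtain ⟨h, C0, hh, hC0, hpig⟩ := pig_exists K
  set d := Module.finrank ℚ K with hd
  refine ⟨C0 + 16 * h * (d + 1), by omega, ?_⟩
  set C := C0 + 16 * h * (d + 1) with hC
  intro S n e E Y τ y p T W δ δ' hn he hY hτ hy hinj hpS hpY hy1 hyp hyS hyτ hTS hδ hyT hδ' hyW
    hcount
  have he0 : (0 : ℝ) < e := by exact_mod_cast he
  have he1 : (1 : ℝ) ≤ e := by exact_mod_cast he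
  have hn0 : (1 : ℝ) ≤ n := by exact_mod_cast hn
  have hh0 : (1 : ℝ) ≤ h := by exact_mod_cast hh
  have hnn : 1 ≤ nn S := one_le_nn S
  obtain ⟨I, J, hIJ, hcard, g, hg0, hge, hgS, hgw⟩ := hpig S n e E y p he hy hpS hy1 hyp hyS (by
    refine lt_of_le_of_lt ?_ hcount
    refine mul_le_mul (mul_le_mul_of_nonneg_left ?_ (by positivity)) ?_ (by positivity)
      (by positivity)
    · exact pow_le_pow_right₀ (by linarith) (by omega)
    · exact pow_le_pow_right₀ hnn (by omega))
  have hI0 : ∀ I : Finset (Fin n), ∏ i ∈ I, y i ≠ 0 := fun I =>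
    Finset.prod_ne_zero_iff.2 fun i _ => hy i
  -- `g` is not one
  have hg1 : g - 1 ≠ 0 := by
    intro hg
    have hg' : g = 1 := sub_eq_zero.1 hg
    rw [hg', one_pow, div_pow, eq_comm, div_eq_one_iff_eq (pow_ne_zero _ (hI0 J))] at hge
    have hex : ∃ i0, ¬ (i0 ∈ I ↔ i0 ∈ J) := by
      by_contra hcon
      push Not at hcon
      exact hIJ (Finset.ext hcon)
    obtain ⟨i0, hi0⟩ := hex
    have h1 := congrArg (fv (p i0)) hge
    rw [map_pow, map_pow, fv_prod_p hinj hpS hy1 hyp, fv_prod_p hinj hpS hy1 hyp] at h1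
    have h2 : ((Nv (p i0))⁻¹ ^ e) ^ h < 1 := by
      rw [← pow_mul]
      exact pow_lt_one_Nv _ (Nat.mul_pos he hh)
    by_cases hi : i0 ∈ I
    · have hj : i0 ∉ J := fun hj => hi0 ⟨fun _ => hj, fun _ => hi⟩
      rw [if_pos hi, if_neg hj, one_pow] at h1
      linarith
    · have hj : i0 ∈ J := by
        by_contra hj
        exact hi0 ⟨fun h => absurd h hi, fun h => absurd h hj⟩
      rw [if_neg hi, if_pos hj, one_pow] at h1
      linarith
  -- the product formula
  set V : Finset (Pr K) := (fv_support_finite hg1).toFinset ∪ (S ∪ Finset.univ.image p) with hV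
  have hVS : S ⊆ V := Finset.subset_union_left.trans Finset.subset_union_right
  have hVp : ∀ i, p i ∈ V := fun i => Finset.mem_union_right _ (Finset.mem_union_right _
    (Finset.mem_image_of_mem p (Finset.mem_univ i)))
  have hform := sum_lg hg1 (V := V) (fun v hv => by
    by_contra hne
    apply hv
    rw [hV]
    refine Finset.mem_union_left _ ?_
    rw [Set.Finite.mem_toFinset]
    exact hne)
  rw [sum_Spl] at hform
  -- finite places
  have hgfin : ∀ v, v ∈ S → fv v g = 1 := by
    intro v hv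
    have h1 := hgS v hv
    have h2 : fv v ((pv v : ℕ) : K) < 1 := by
      have h3 := (NumberField.FinitePlace.norm_lt_one_iff_mem (K := K) v ((pv v : ℕ) : 𝓞 K)).2
        (pv_mem v)
      have h4 : fv v ((pv v : ℕ) : K) = fv v (((pv v : ℕ) : 𝓞 K) : K) :=
        congrArg (fv v) (map_natCast (algebraMap (𝓞 K) K) (pv v)).symm
      rw [h4]
      exact h3
    have h3 : fv v (g - 1) < 1 := by
      refine lt_of_le_of_lt h1 ?_
      exact pow_lt_one₀ ((fv v).nonneg _) h2 (by norm_num)
    have h4 : fv v g ≤ max (fv v (g - 1)) (fv v 1) := by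
      have := fv_na v (g - 1) 1
      rwa [sub_add_cancel] at this
    have h5 : fv v (1 : K) ≤ max (fv v g) (fv v (1 - g)) := by
      have := fv_na v g (1 - g)
      rwa [add_sub_cancel] at this
    rw [map_one] at h4 h5
    have h6 : fv v (1 - g) = fv v (g - 1) := by
      rw [← (fv v).map_neg, neg_sub]
    rw [h6] at h5
    rcases le_max_iff.1 h5 with h7 | h7
    · exact le_antisymm (h4.trans (max_le h3.le le_rfl)) h7
    · linarith
  have hT1 : ∀ v ∈ T, lg (Sum.inr v : Pl K) (g - 1) ≤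
      Real.log (δ v) + -Real.log (fv v ((e : ℕ) : K)) := by
    intro v hv
    have h1 := lte v he (hgS v (hTS hv))
    have h2 : fv v (g ^ e - 1) ≤ δ v := by
      rw [hge]
      exact prod_near_one_fin y I J (hδ v hv).1 (hδ v hv).2 (fun i => hyT i v hv)
    have h3 : 0 < fv v (g - 1) := fv_pos v hg1
    have h4 : 0 < fv v ((e : ℕ) : K) := fv_pos v (by exact_mod_cast (show e ≠ 0 by omega))
    have h5 := Real.log_le_log (mul_pos h3 h4) (h1.trans h2)
    rw [Real.log_mul h3.ne' h4.ne'] at h5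
    show 1 * Real.log (fv v (g - 1)) ≤ _
    linarith
  have hV1 : ∀ v ∈ V \ T, lg (Sum.inr v : Pl K) (g - 1) ≤
      ∑ j ∈ J, (if p j = v then (h : ℝ) * Real.log (Nv v) else 0) := by
    intro v hv
    have hnonneg : 0 ≤ ∑ j ∈ J, (if p j = v then (h : ℝ) * Real.log (Nv v) else 0) := by
      refine Finset.sum_nonneg fun j _ => ?_
      split_ifs
      · exact mul_nonneg (by positivity) (log_Nv_pos' v).le
      · exact le_rfl
    have h3 : 0 < fv v (g - 1) := fv_pos v hg1
    have h4 : fv v (g - 1) ≤ max (fv v g) 1 := by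
      have := fv_na v g (-1)
      rw [(fv v).map_neg, map_one, ← sub_eq_add_neg] at this
      exact this
    have h5 : Real.log (fv v (g - 1)) ≤ Real.log (max (fv v g) 1) := Real.log_le_log h3 h4
    show 1 * Real.log (fv v (g - 1)) ≤ _
    rw [one_mul]
    refine h5.trans ?_
    by_cases hvS : v ∈ S
    · rw [hgfin v hvS, max_self, Real.log_one]
      exact hnonneg
    · have hlog : ∀ i, Real.log (fv v (y i)) = if p i = v then -((e : ℝ) * Real.log (Nv v)) else 0 := by
        intro i
        split_ifs with hpi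
        · rw [← hpi, hyp i, Real.log_pow, Real.log_inv]
          ring
        · rw [hy1 i v hvS (Ne.symm hpi), Real.log_one]
      have hlogI : ∀ I : Finset (Fin n), Real.log (fv v (∏ i ∈ I, y i)) =
          ∑ i ∈ I, if p i = v then -((e : ℝ) * Real.log (Nv v)) else 0 := by
        intro I
        rw [map_prod, Real.log_prod (fun i _ => (fv_pos v (hy i)).ne')]
        exact Finset.sum_congr rfl fun i _ => hlog i
      have h6 : (e : ℝ) * Real.log (fv v g) = h * (Real.log (fv v (∏ i ∈ I, y i)) -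
          Real.log (fv v (∏ j ∈ J, y j))) := by
        rw [← Real.log_pow, ← map_pow, hge, map_pow, Real.log_pow, map_div₀, Real.log_div]
        · exact (fv_pos v (hI0 I)).ne'
        · exact (fv_pos v (hI0 J)).ne'
      have h7 : Real.log (fv v (∏ i ∈ I, y i)) ≤ 0 := by
        rw [hlogI]
        refine Finset.sum_nonpos fun i _ => ?_
        split_ifs
        · have := mul_nonneg he0.le (log_Nv_pos' v).le
          linarith
        · exact le_rfl
      have h8 : Real.log (fv v (∏ j ∈ J, y j)) =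
          -((e : ℝ) * ∑ j ∈ J, if p j = v then Real.log (Nv v) else 0) := by
        rw [hlogI, Finset.mul_sum, ← Finset.sum_neg_distrib]
        refine Finset.sum_congr rfl fun j _ => ?_
        split_ifs <;> simp
      have h9 : Real.log (fv v g) ≤ h * ∑ j ∈ J, if p j = v then Real.log (Nv v) else 0 := by
        refine le_of_mul_le_mul_left ?_ he0
        rw [h6, h8]
        nlinarith
      have h10 : h * ∑ j ∈ J, (if p j = v then Real.log (Nv v) else 0) =
          ∑ j ∈ J, (if p j = v then (h : ℝ) * Real.log (Nv v) else 0) := by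
        rw [Finset.mul_sum]
        refine Finset.sum_congr rfl fun j _ => ?_
        split_ifs <;> simp
      rw [h10] at h9
      rcases max_choice (fv v g) 1 with hm | hm
      · rw [hm]
        exact h9
      · rw [hm, Real.log_one]
        exact hnonneg
  have hfin : ∑ v ∈ V, lg (Sum.inr v : Pl K) (g - 1) ≤
      ∑ v ∈ T, Real.log (δ v) + d * Real.log e + h * (n * Real.log Y) := by
    have hTV : T ⊆ V := hTS.trans hVS
    rw [← Finset.sum_sdiff hTV]
    have h1 := Finset.sum_le_sum hT1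
    rw [Finset.sum_add_distrib] at h1
    have h2 := sum_natCast_ge T he
    have h3 := Finset.sum_le_sum hV1
    have h4 : ∑ v ∈ V \ T, ∑ j ∈ J, (if p j = v then (h : ℝ) * Real.log (Nv v) else 0) ≤
        h * (n * Real.log Y) := by
      rw [Finset.sum_comm]
      calc ∑ j ∈ J, ∑ v ∈ V \ T, (if p j = v then (h : ℝ) * Real.log (Nv v) else 0)
          ≤ ∑ _j ∈ J, (h : ℝ) * Real.log Y := by
            refine Finset.sum_le_sum fun j _ => ?_
            have h5 : ∑ v ∈ V \ T, (if p j = v then (h : ℝ) * Real.log (Nv v) else 0) ≤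
                (h : ℝ) * Real.log (Nv (p j)) := by
              rw [Finset.sum_ite_eq]
              split_ifs
              · exact le_rfl
              · exact mul_nonneg (by positivity) (log_Nv_pos' _).le
            refine h5.trans (mul_le_mul_of_nonneg_left ?_ (by positivity))
            exact Real.log_le_log (Nv_pos _) (hpY j)
        _ = J.card * ((h : ℝ) * Real.log Y) := by rw [Finset.sum_const, nsmul_eq_mul]
        _ ≤ n * ((h : ℝ) * Real.log Y) := by
            refine mul_le_mul_of_nonneg_right ?_ (mul_nonneg (by positivity) (Real.log_nonneg hY))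
            have := Finset.card_le_univ J
            rw [Fintype.card_fin] at this
            exact_mod_cast this
        _ = _ := by ring
    linarith
  -- infinite places
  have hW1 : ∀ w ∈ W, lg (Sum.inl w : Pl K) (g - 1) ≤
      (w.mult : ℝ) * Real.log (δ' w) + (w.mult : ℝ) * (8 * h * n) := by
    intro w hw
    have hδw := hδ' w hw
    have h1 : w (g - 1) ≤ 8 * (n * h : ℕ) * δ' w := by
      have h2 := sector he (hgw w)
      have h3 : w (g - 1) = ‖w.embedding g - 1‖ := by
        rw [← InfinitePlace.norm_embedding_eq, map_sub, map_one]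
      have h4 : w (g ^ e - 1) = ‖w.embedding g ^ e - 1‖ := by
        rw [← InfinitePlace.norm_embedding_eq, map_sub, map_one, map_pow]
      rw [h3]
      refine h2.trans ?_
      rw [← h4, hge]
      refine prod_near_one y I J hδw.1.le (fun i => hyW i w hw) ?_ hh hn
      have h5 : (8 : ℝ) * (n * h : ℕ) ≤ C * n := by
        rw [hC]
        push_cast
        have : (0 : ℝ) ≤ C0 := by positivity
        have : (0 : ℝ) ≤ d := by positivity
        nlinarith [mul_nonneg (mul_nonneg (by positivity : (0:ℝ) ≤ h) (by positivity : (0:ℝ) ≤ d))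
          (by positivity : (0:ℝ) ≤ n), mul_nonneg (by positivity : (0:ℝ) ≤ C0)
          (by positivity : (0:ℝ) ≤ n), mul_nonneg (by positivity : (0:ℝ) ≤ h)
          (by positivity : (0:ℝ) ≤ n)]
      exact (mul_le_mul_of_nonneg_right h5 hδw.1.le).trans hδw.2
    have hpos : 0 < w (g - 1) := w.pos_iff.2 hg1
    have h2 := Real.log_le_log hpos h1
    have hnh : (0 : ℝ) < 8 * (n * h : ℕ) := by
      have : 0 < n * h := Nat.mul_pos hn hh
      positivity
    rw [Real.log_mul hnh.ne' hδw.1.ne'] at h2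
    have h3 : Real.log (8 * (n * h : ℕ)) ≤ 8 * h * n := by
      refine (Real.log_le_self hnh.le).trans (le_of_eq ?_)
      push_cast
      ring
    show (w.mult : ℝ) * Real.log (w (g - 1)) ≤ _
    rw [← mul_add]
    exact mul_le_mul_of_nonneg_left (by linarith) (Nat.cast_nonneg _)
  have hW2 : ∀ w : InfinitePlace K, w ∉ W → lg (Sum.inl w : Pl K) (g - 1) ≤
      (w.mult : ℝ) * (1 + 2 * h * (n * τ / e)) := by
    intro w _
    have hpos : 0 < w (g - 1) := w.pos_iff.2 hg1
    have hposg : 0 < w g := w.pos_iff.2 hg0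
    have h1 : w (g - 1) ≤ 2 * max (w g) 1 := by
      have h2 : w (g - 1) ≤ w g + w 1 := by
        have := w.1.add_le g (-1)
        rw [w.1.map_neg, ← sub_eq_add_neg] at this
        exact this
      rw [map_one] at h2
      have h3 := le_max_left (w g) 1
      have h4 := le_max_right (w g) 1
      linarith
    have h2 := Real.log_le_log hpos h1
    rw [Real.log_mul (by norm_num) (lt_of_lt_of_le one_pos (le_max_right _ _)).ne'] at h2
    have hlogI : ∀ I : Finset (Fin n), Real.log (w (∏ i ∈ I, y i)) =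
        ∑ i ∈ I, Real.log (w (y i)) := by
      intro I
      rw [map_prod, Real.log_prod (fun i _ => (w.pos_iff.2 (hy i)).ne')]
    have h6 : (e : ℝ) * Real.log (w g) = h * (Real.log (w (∏ i ∈ I, y i)) -
        Real.log (w (∏ j ∈ J, y j))) := by
      rw [← Real.log_pow, ← map_pow, hge, map_pow, Real.log_pow, map_div₀, Real.log_div]
      · exact (w.pos_iff.2 (hI0 I)).ne'
      · exact (w.pos_iff.2 (hI0 J)).ne'
    have h7 := sum_diff_le (fun i => Real.log (w (y i))) hτ (fun i j => hyτ i j w) I J hcard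
    have h8 : Real.log (w g) ≤ 2 * h * (n * τ / e) := by
      refine le_of_mul_le_mul_left ?_ he0
      rw [h6, hlogI, hlogI]
      have e1 : (e : ℝ) * (2 * h * (n * τ / e)) = h * (2 * (n * τ)) := by
        field_simp
      rw [e1]
      exact mul_le_mul_of_nonneg_left h7 (by positivity)
    have h9 : Real.log (max (w g) 1) ≤ 2 * h * (n * τ / e) := by
      rcases max_choice (w g) 1 with hm | hm
      · rw [hm]
        exact h8
      · rw [hm, Real.log_one]
        positivity
    have l2 := Real.log_two_lt_d9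
    show (w.mult : ℝ) * Real.log (w (g - 1)) ≤ _
    exact mul_le_mul_of_nonneg_left (by linarith) (Nat.cast_nonneg _)
  have hmultW : ∑ w ∈ W, (w.mult : ℝ) ≤ d := by
    have h1 : ∑ w : InfinitePlace K, (w.mult : ℝ) = d := by
      rw [hd, ← InfinitePlace.sum_mult_eq]
      push_cast
      rfl
    rw [← h1]
    exact Finset.sum_le_sum_of_subset_of_nonneg (Finset.subset_univ _) fun w _ _ =>
      Nat.cast_nonneg _
  have hmultW' : ∑ w ∈ Finset.univ \ W, (w.mult : ℝ) ≤ d := by
    have h1 : ∑ w : InfinitePlace K, (w.mult : ℝ) = d := by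
      rw [hd, ← InfinitePlace.sum_mult_eq]
      push_cast
      rfl
    rw [← h1]
    exact Finset.sum_le_sum_of_subset_of_nonneg (Finset.subset_univ _) fun w _ _ =>
      Nat.cast_nonneg _
  have hinf : ∑ w : InfinitePlace K, lg (Sum.inl w : Pl K) (g - 1) ≤
      ∑ w ∈ W, (w.mult : ℝ) * Real.log (δ' w) + d * (8 * h * n) +
        d * (1 + 2 * h * (n * τ / e)) := by
    rw [← Finset.sum_sdiff (Finset.subset_univ W)]
    have h1 := Finset.sum_le_sum hW1
    rw [Finset.sum_add_distrib, ← Finset.sum_mul] at h1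
    have h2 := Finset.sum_le_sum (s := Finset.univ \ W) fun w hw =>
      hW2 w (Finset.mem_sdiff.1 hw).2
    rw [← Finset.sum_mul] at h2
    have h3 : (∑ w ∈ W, (w.mult : ℝ)) * (8 * h * n) ≤ d * (8 * h * n) :=
      mul_le_mul_of_nonneg_right hmultW (by positivity)
    have h4 : (∑ w ∈ Finset.univ \ W, (w.mult : ℝ)) * (1 + 2 * h * (n * τ / e)) ≤
        d * (1 + 2 * h * (n * τ / e)) :=
      mul_le_mul_of_nonneg_right hmultW' (by positivity)
    linarith
  have hd0 : (0 : ℝ) ≤ d := Nat.cast_nonneg _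
  have hle : 0 ≤ Real.log e := Real.log_nonneg he1
  have hlY : 0 ≤ Real.log Y := Real.log_nonneg hY
  have hnt : 0 ≤ n * τ / e := by positivity
  have hC0' : (0 : ℝ) ≤ C0 := Nat.cast_nonneg _
  have hneg1 : ∑ v ∈ T, -Real.log (δ v) = -∑ v ∈ T, Real.log (δ v) := by
    rw [Finset.sum_neg_distrib]
  have hneg2 : ∑ w ∈ W, (w.mult : ℝ) * -Real.log (δ' w) =
      -∑ w ∈ W, (w.mult : ℝ) * Real.log (δ' w) := by
    rw [← Finset.sum_neg_distrib]
    exact Finset.sum_congr rfl fun w _ => by ring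
  rw [hneg1, hneg2]
  have hCr : (C : ℝ) = C0 + 16 * h * (d + 1) := by rw [hC]; push_cast; ring
  have hnY : 0 ≤ n * Real.log Y := mul_nonneg (by linarith) hlY
  have hhd : 0 ≤ (h : ℝ) * d := mul_nonneg (by linarith) hd0
  have b1 : d * Real.log e ≤ C * Real.log e := by
    refine mul_le_mul_of_nonneg_right ?_ hle
    rw [hCr]
    nlinarith
  have b2 : h * (n * Real.log Y) ≤ C * (n * Real.log Y) := by
    refine mul_le_mul_of_nonneg_right ?_ hnY
    rw [hCr]
    nlinarith
  have b3 : (d : ℝ) * (8 * h * n) + d ≤ C * n := by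
    rw [hCr]
    have e1 : (d : ℝ) ≤ h * d * n := by
      have : (d : ℝ) * 1 ≤ d * (h * n) := mul_le_mul_of_nonneg_left (by nlinarith) hd0
      linarith
    nlinarith [mul_nonneg hhd (by linarith : (0 : ℝ) ≤ n), mul_nonneg hC0' (by linarith : (0 : ℝ) ≤ n),
      mul_nonneg (by linarith : (0 : ℝ) ≤ (h : ℝ)) (by linarith : (0 : ℝ) ≤ n)]
  have b4 : d * (2 * h * (n * τ / e)) ≤ C * (n * τ / e) := by
    have e1 : d * (2 * h * (n * τ / e)) = (2 * (h * d)) * (n * τ / e) := by ring
    rw [e1]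
    refine mul_le_mul_of_nonneg_right ?_ hnt
    rw [hCr]
    nlinarith
  linarith

end Pool.Agent.TH876.KR
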