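import Pool.Agent.H59.L.S8.TH876.KR.Count
import Pool.Agent.H59.L.S8.TH876.KR.Num
import Pool.Agent.H59.L.S8.TH867.SR.Num

set_option autoImplicit false

/-!
# The bound at one scale
-/

namespace Pool.Agent.TH876.KR

open NumberField IsDedekindDomain Finset Pool.Agent.H691R3 Pool.Agent.TH876.Loc

variable {K : Type} [Field K] [NumberField K]

theorem card_log_le {X : ℝ} {S : Finset (Pr K)} (h : nn S ≤ X) :
    (S.card : ℝ) * Real.log 2 ≤ Real.log X := by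
  rw [← Real.log_pow]
  refine Real.log_le_log (by positivity) (le_trans ?_ h)
  unfold nn
  calc (2 : ℝ) ^ S.card = ∏ _v ∈ S, (2 : ℝ) := by rw [Finset.prod_const]
    _ ≤ ∏ v ∈ S, Nv v := Finset.prod_le_prod (fun _ _ => by norm_num) fun v _ => two_le_Nv v

variable (K) in
/-- the bound at one scale -/
theorem scale_count {k : ℕ} (hk : 3 ≤ k) {η : ℝ} (hη : 0 < η) : ∃ D : ℝ, 0 < D ∧ ∃ L0 : ℝ,
    3 ≤ L0 ∧ ∀ X : ℝ, 1 ≤ X → L0 ≤ Real.log X → ∀ l : ℝ, Real.log X ^ (2 + η) ≤ l → l ≤ X →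
    ∀ F : Finset K, (∀ x ∈ F, Pt x ∧ Sc k l x ∧ nn (sp x) ≤ X) →
    (F.card : ℝ) ≤ D * X ^ (2 / 3 + 3 / (k : ℝ)) * l := by
  classical
  have hk0 : (0 : ℝ) < k := by positivity
  have hk1 : 1 ≤ k := by omega
  have hk3 : (3 : ℝ) ≤ k := by exact_mod_cast hk
  obtain ⟨C, hC, hpig⟩ := pigK K
  obtain ⟨r, hr⟩ : ∃ r, r = Fintype.card (InfinitePlace K) := ⟨_, rfl⟩
  have hr1 : 1 ≤ r := by rw [hr]; exact Fintype.card_pos
  obtain ⟨T, hT, hnum⟩ := numericK C k r hC hk1 hr1 (dK K * Real.log 2) dK_nn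
  obtain ⟨L0, hL0, hsm⟩ := Pool.Agent.TH867.SR.sq_log_small hη hT
  obtain ⟨hfinU, D1, hD1, hso⟩ := sum_sets K ((2 : ℝ) ^ (99 * k)) (one_le_pow₀ (by norm_num))
    (1 / (k : ℝ)) (by positivity)
  -- a constant for powers of the logarithm
  obtain ⟨m, hm⟩ : ∃ m : ℕ, m = 3 * r + 1 := ⟨_, rfl⟩
  obtain ⟨A, hA⟩ : ∃ A : ℝ, A = 21 + 12 * C := ⟨_, rfl⟩
  have hA0 : 0 < A := by rw [hA]; positivity
  obtain ⟨D2, hD2, hpow⟩ : ∃ D2 : ℝ, 0 < D2 ∧ ∀ X : ℝ, 1 ≤ X →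
      Real.log X ^ (2 * m) ≤ D2 * X ^ (1 / (k : ℝ)) := by
    refine ⟨(2 * m * k) ^ (2 * m), ?_, ?_⟩
    · rw [hm]; positivity
    intro X hX
    have hX0 : 0 < X := by linarith
    have hm0 : (0 : ℝ) < 2 * m * k := by rw [hm]; positivity
    have a1 : Real.log X ≤ X ^ (1 / (2 * m * (k : ℝ))) / (1 / (2 * m * (k : ℝ))) :=
      Real.log_le_rpow_div hX0.le (by positivity)
    have a2 : X ^ (1 / (2 * m * (k : ℝ))) / (1 / (2 * m * (k : ℝ))) =
        2 * m * k * X ^ (1 / (2 * m * (k : ℝ))) := by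
      field_simp
    rw [a2] at a1
    refine (pow_le_pow_left₀ (Real.log_nonneg hX) a1 _).trans (le_of_eq ?_)
    rw [mul_pow, ← Real.rpow_natCast (X ^ (1 / (2 * m * (k : ℝ)))), ← Real.rpow_mul hX0.le]
    congr 2
    have : (m : ℝ) ≠ 0 := by
      rw [hm]; positivity
    push_cast
    field_simp
  refine ⟨28 * 5 * (48 * C * k) ^ (3 * r) * A ^ m * D2 * 2 ^ (99 * k * r) * D1 + 1, by positivity,
    L0, hL0, ?_⟩
  intro X hX hXL l hl hlX F hF
  have hX0 : 0 < X := by linarith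
  obtain ⟨L, hLd⟩ : ∃ L, L = Real.log X := ⟨_, rfl⟩
  rw [← hLd] at hXL hl
  have hL3 : 3 ≤ L := hL0.trans hXL
  obtain ⟨hlog1, hLl, hTl⟩ := hsm L hXL l hl
  have hl3 : 3 ≤ l := hL3.trans hLl
  have hl0 : 0 < l := by linarith
  have hlogL : Real.log l ≤ L := by
    rw [hLd]; exact Real.log_le_log hl0 hlX
  obtain ⟨n, N, E, hn, hN, hnA, hNn, hE1, hE2, c1, c2, c3, c4, c5⟩ := hnum L l hL3 hlog1 hLl hTl
  rw [← hA] at hnA
  have hexp : 2 / 3 + 1 / (k : ℝ) ≤ 1 := by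
    have : 1 / (k : ℝ) ≤ 1 / 3 := one_div_le_one_div_of_le (by norm_num) hk3
    linarith
  obtain ⟨M, hM⟩ : ∃ M, M = X ^ (2 / 3 + 1 / (k : ℝ)) := ⟨_, rfl⟩
  have hM1 : 1 ≤ M := by rw [hM]; exact Real.one_le_rpow hX (by positivity)
  have hMX : M ≤ X := by
    rw [hM]
    calc X ^ (2 / 3 + 1 / (k : ℝ)) ≤ X ^ (1 : ℝ) := Real.rpow_le_rpow_of_exponent_le hX hexp
      _ = X := Real.rpow_one X
  set U := (hfinU M).toFinset with hU
  have hcount := count (C := C) hpig hk hn hN hX c1 hE1 (by rw [← hr]; exact c2)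
    (by rw [← hr]; exact c3)
    (fun S hS e he heE => c4 S.card e (nn S) (by
        have h1 := card_log_le hS
        have l2 := Real.log_two_gt_d9
        rw [← hLd] at h1
        nlinarith [(Nat.cast_nonneg S.card : (0 : ℝ) ≤ S.card)]) (one_le_nn S) (by
        rw [hLd]; exact Real.log_le_log (nn_pos S) hS) he heE)
    (fun e he heE => by rw [← hLd]; exact c5 e he heE)
    U (fun S hS => by
      rw [hU, Set.Finite.mem_toFinset]
      exact hS.trans (le_of_eq hM.symm))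
    (fun S hS => by
      rw [hU, Set.Finite.mem_toFinset] at hS
      exact le_trans hS hMX) F hF
  rw [← hr] at hcount
  obtain ⟨Q, hQ⟩ : ∃ Q : ℝ, Q = (E + 1) * ((3 * N) ^ (3 * r) * n) := ⟨_, rfl⟩
  have hN0 : (1 : ℝ) ≤ N := by exact_mod_cast hN
  have hn0 : (1 : ℝ) ≤ n := by exact_mod_cast hn
  have hQ1 : 1 ≤ Q := by
    rw [hQ]
    have h1 : (1 : ℝ) ≤ (3 * N) ^ (3 * r) := one_le_pow₀ (by linarith)
    have h2 : (1 : ℝ) ≤ E + 1 := by
      have := Nat.cast_nonneg (α := ℝ) E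
      linarith
    have h3 : (1 : ℝ) ≤ (3 * N) ^ (3 * r) * n := by nlinarith
    nlinarith
  have h1 : (F.card : ℝ) ≤ ∑ S ∈ U, (28 * Q * 2 ^ (99 * k * r)) * ((2 : ℝ) ^ (99 * k)) ^ S.card := by
    have h2 : (F.card : ℝ) ≤ ((∑ S ∈ U, 2 ^ (99 * k * (Spl S).card) *
        (1 + 27 * ((E + 1) * ((3 * N) ^ (3 * r) * n))) : ℕ) : ℝ) := by
      exact_mod_cast hcount
    refine h2.trans ?_
    rw [Nat.cast_sum]
    refine Finset.sum_le_sum fun S _ => ?_
    push_cast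
    rw [← hQ, card_Spl, ← hr]
    have e1 : (2 : ℝ) ^ (99 * k * (r + S.card)) = 2 ^ (99 * k * r) * (2 ^ (99 * k)) ^ S.card := by
      rw [mul_add, pow_add, ← pow_mul]
    rw [e1]
    have p0 : (0 : ℝ) < 2 ^ (99 * k * r) * (2 ^ (99 * k)) ^ S.card := by positivity
    calc (2 : ℝ) ^ (99 * k * r) * (2 ^ (99 * k)) ^ S.card * (1 + 27 * Q) ≤
        2 ^ (99 * k * r) * (2 ^ (99 * k)) ^ S.card * (28 * Q) :=
          mul_le_mul_of_nonneg_left (by linarith) p0.le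
      _ = _ := by ring
  rw [← Finset.mul_sum] at h1
  have h2 := hso M hM1 U (fun S hS => by
    rw [hU, Set.Finite.mem_toFinset] at hS
    exact hS)
  have hMk : M ^ (1 + 1 / (k : ℝ)) ≤ X ^ (2 / 3 + 2 / (k : ℝ)) := by
    rw [hM, ← Real.rpow_mul hX0.le]
    refine Real.rpow_le_rpow_of_exponent_le hX ?_
    have a3 : 1 / (k : ℝ) ≤ 1 / 3 := one_div_le_one_div_of_le (by norm_num) hk3
    have a5 : 2 / (k : ℝ) = 2 * (1 / k) := by ring
    rw [a5]
    have h0 : (0 : ℝ) ≤ 1 / k := by positivity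
    nlinarith
  -- the bound for `Q`
  have hnL : (n : ℝ) ≤ A * L ^ 2 := by
    refine hnA.trans ?_
    have : L * Real.log l ≤ L ^ 2 := by rw [sq]; exact mul_le_mul_of_nonneg_left hlogL (by linarith)
    exact mul_le_mul_of_nonneg_left this hA0.le
  have hQ2 : Q ≤ 5 * l * ((48 * C * k) ^ (3 * r) * A ^ m * (D2 * X ^ (1 / (k : ℝ)))) := by
    rw [hQ]
    have q1 : (E : ℝ) + 1 ≤ 5 * l := by linarith
    have q2 : ((3 : ℝ) * N) ^ (3 * r) * n = (48 * C * k) ^ (3 * r) * (n : ℝ) ^ m := by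
      rw [hNn, hm, pow_succ]
      have : (3 : ℝ) * (16 * C * k * n) = (48 * C * k) * n := by ring
      rw [this, mul_pow]
      ring
    have q3 : (n : ℝ) ^ m ≤ A ^ m * (D2 * X ^ (1 / (k : ℝ))) := by
      calc (n : ℝ) ^ m ≤ (A * L ^ 2) ^ m := pow_le_pow_left₀ (Nat.cast_nonneg _) hnL m
        _ = A ^ m * L ^ (2 * m) := by rw [mul_pow, ← pow_mul]
        _ ≤ _ := by
            refine mul_le_mul_of_nonneg_left ?_ (by positivity)
            rw [hLd]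
            exact hpow X hX
    rw [q2]
    refine mul_le_mul q1 ?_ (by positivity) (by positivity)
    rw [mul_assoc ((48 * (C : ℝ) * k) ^ (3 * r))]
    exact mul_le_mul_of_nonneg_left q3 (by positivity)
  have hXk : X ^ (1 / (k : ℝ)) * X ^ (2 / 3 + 2 / (k : ℝ)) = X ^ (2 / 3 + 3 / (k : ℝ)) := by
    rw [← Real.rpow_add hX0]
    congr 1
    ring
  have hfinal : (F.card : ℝ) ≤ 28 * 5 * (48 * C * k) ^ (3 * r) * A ^ m * D2 * 2 ^ (99 * k * r) *
      D1 * X ^ (2 / 3 + 3 / (k : ℝ)) * l := by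
    calc (F.card : ℝ) ≤ (28 * Q * 2 ^ (99 * k * r)) * (D1 * M ^ (1 + 1 / (k : ℝ))) :=
          h1.trans (mul_le_mul_of_nonneg_left h2 (by positivity))
      _ ≤ (28 * (5 * l * ((48 * C * k) ^ (3 * r) * A ^ m * (D2 * X ^ (1 / (k : ℝ))))) *
          2 ^ (99 * k * r)) * (D1 * X ^ (2 / 3 + 2 / (k : ℝ))) := by
          refine mul_le_mul ?_ (mul_le_mul_of_nonneg_left hMk hD1.le) (by positivity)
            (by positivity)
          refine mul_le_mul_of_nonneg_right ?_ (by positivity)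
          exact mul_le_mul_of_nonneg_left hQ2 (by norm_num)
      _ = 28 * 5 * (48 * C * k) ^ (3 * r) * A ^ m * D2 * 2 ^ (99 * k * r) * D1 *
          (X ^ (1 / (k : ℝ)) * X ^ (2 / 3 + 2 / (k : ℝ))) * l := by ring
      _ = _ := by rw [hXk]
  refine hfinal.trans ?_
  refine mul_le_mul_of_nonneg_right ?_ hl0.le
  refine mul_le_mul_of_nonneg_right ?_ (by positivity)
  linarith

end Pool.Agent.TH876.KR
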